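import Pool.Agent.V8H74.SR.Bounds

/-!
# Sums of read-once programs: numerical bounds of the search along lines
-/

set_option autoImplicit false

namespace Pool.Agent.V8H74.SR

theorem log_le_sq (w : ℕ) : Nat.log 2 (w ^ 2) ≤ w ^ 2 := Nat.log_le_self 2 _

theorem cost_bound2 (c n w d : ℕ) {lam P N M T X S R : ℕ} (hlam : lam = Nat.log 2 (w ^ 2))
    (hP : P = 2 * (2 ^ lam * w ^ 2) * (c * (n + 1) ^ (2 + (2 * lam + 1) + lam)))
    (hN : N = P * d) (hM : M = 2 ^ lam * w ^ 2 * d)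
    (hT : T = (2 * lam + 1) * ((P + 2 ^ lam * w ^ 2) * d))
    (hX : X = 2 * (c + 1) * (n + 1) * (w + 1) * (d + 1))
    (hS : S ≤ (n + 1) ^ (2 * lam + 1) * (M + 1) ^ (2 * lam + 1))
    (hR : R ≤ 2 * (c * (n + 1) ^ (2 + (2 * lam + 1) + lam)) * (M + 1) ^ (2 * lam + 1 + lam)) :
    P + 1 ≤ X ^ (3 * lam + 4) ∧ N + 1 ≤ X ^ (3 * lam + 4) ∧ T + 1 ≤ X ^ (3 * lam + 6) ∧
    (1 + (P + 1) * (S * (T + 1) + (2 * lam + 1) * (N + 1))) * R ≤ X ^ (29 * lam + 23) := by
  obtain ⟨hPX, hNX', -⟩ := cost_bound c n w d hlam hP rfl hX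
  have hX1 : 1 ≤ X := by rw [hX]; exact Nat.succ_le_of_lt (by positivity)
  have h2X : 2 ≤ X := by
    rw [hX]
    calc 2 = 2 * 1 * 1 * 1 * 1 := by norm_num
      _ ≤ 2 * (c + 1) * (n + 1) * (w + 1) * (d + 1) := by gcongr <;> omega
  have hNX : N + 1 ≤ X ^ (3 * lam + 4) := by
    refine le_trans ?_ hNX'
    rw [hN]
    gcongr
    omega
  have hℓX : 2 * lam + 1 ≤ X ^ 2 := by
    have h1 : 2 * w + 2 ≤ X := by
      rw [hX]
      calc 2 * w + 2 = 2 * 1 * 1 * (w + 1) * 1 := by ring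
        _ ≤ 2 * (c + 1) * (n + 1) * (w + 1) * (d + 1) := by gcongr <;> omega
    calc 2 * lam + 1 ≤ 2 * w ^ 2 + 1 := by
          rw [hlam]
          have := log_le_sq w
          omega
      _ ≤ (2 * w + 2) ^ 2 := by nlinarith [Nat.zero_le w, Nat.zero_le (w ^ 2)]
      _ ≤ X ^ 2 := Nat.pow_le_pow_left h1 2
  have hTX : T + 1 ≤ X ^ (3 * lam + 6) := by
    calc T + 1 ≤ (2 * lam + 1) * ((P + 2 ^ lam * w ^ 2) * d + 1) := by
          rw [hT, mul_add, mul_one]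
          omega
      _ ≤ X ^ 2 * X ^ (3 * lam + 4) := Nat.mul_le_mul hℓX hNX'
      _ = X ^ (3 * lam + 6) := by rw [← pow_add]; congr 1; ring
  refine ⟨hPX, hNX, hTX, ?_⟩
  have hw4 : 2 ^ lam * w ^ 2 ≤ w ^ 4 := by rw [hlam]; exact two_pow_log_le w
  have hM4 : M + 1 ≤ (w + 1) ^ 4 * (d + 1) := by
    have h1 : (w + 1) ^ 4 = w ^ 4 + 1 + (4 * w ^ 3 + 6 * w ^ 2 + 4 * w) := by ring
    calc M + 1 ≤ w ^ 4 * d + 1 := by
          rw [hM]
          gcongr
      _ ≤ (w ^ 4 + 1) * (d + 1) := by nlinarith [Nat.zero_le (w ^ 4), Nat.zero_le d]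
      _ ≤ (w + 1) ^ 4 * (d + 1) := by
          gcongr
          omega
  have hnM : (n + 1) * (M + 1) ≤ X ^ 4 := by
    calc (n + 1) * (M + 1) ≤ (n + 1) ^ 4 * ((w + 1) ^ 4 * (d + 1) ^ 4) := by
          refine Nat.mul_le_mul (Nat.le_self_pow (by norm_num) _) (hM4.trans ?_)
          gcongr
          exact Nat.le_self_pow (by norm_num) _
      _ = ((n + 1) * (w + 1) * (d + 1)) ^ 4 := by ring
      _ ≤ X ^ 4 := by
          refine Nat.pow_le_pow_left ?_ 4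
          rw [hX]
          calc (n + 1) * (w + 1) * (d + 1) = 1 * 1 * (n + 1) * (w + 1) * (d + 1) := by ring
            _ ≤ 2 * (c + 1) * (n + 1) * (w + 1) * (d + 1) := by gcongr <;> omega
  have hMX : M + 1 ≤ X ^ 4 := (Nat.le_mul_of_pos_left _ (Nat.succ_pos n)).trans hnM
  have hSX : S ≤ X ^ (8 * lam + 4) := by
    calc S ≤ ((n + 1) * (M + 1)) ^ (2 * lam + 1) := by rw [mul_pow]; exact hS
      _ ≤ (X ^ 4) ^ (2 * lam + 1) := Nat.pow_le_pow_left hnM _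
      _ = X ^ (8 * lam + 4) := by rw [← pow_mul]; congr 1; ring
  have hV : S * (T + 1) + (2 * lam + 1) * (N + 1) ≤ X ^ (11 * lam + 11) := by
    calc S * (T + 1) + (2 * lam + 1) * (N + 1)
        ≤ X ^ (8 * lam + 4) * X ^ (3 * lam + 6) + X ^ 2 * X ^ (3 * lam + 4) := by gcongr
      _ = X ^ (11 * lam + 10) + X ^ (3 * lam + 6) := by
          rw [← pow_add, ← pow_add]; congr 2 <;> ring
      _ ≤ X ^ (11 * lam + 10) + X ^ (11 * lam + 10) :=
          Nat.add_le_add_left (Nat.pow_le_pow_right hX1 (by omega)) _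
      _ = 2 * X ^ (11 * lam + 10) := by ring
      _ ≤ X * X ^ (11 * lam + 10) := Nat.mul_le_mul_right _ h2X
      _ = X ^ (11 * lam + 11) := by ring
  have hPV : 1 + (P + 1) * (S * (T + 1) + (2 * lam + 1) * (N + 1)) ≤ X ^ (14 * lam + 16) := by
    have h1 : 1 ≤ X ^ (14 * lam + 15) := Nat.one_le_pow _ _ hX1
    calc 1 + (P + 1) * (S * (T + 1) + (2 * lam + 1) * (N + 1))
        ≤ X ^ (14 * lam + 15) + X ^ (3 * lam + 4) * X ^ (11 * lam + 11) := by gcongr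
      _ = 2 * X ^ (14 * lam + 15) := by
          rw [← pow_add]
          have e : 3 * lam + 4 + (11 * lam + 11) = 14 * lam + 15 := by ring
          rw [e]; ring
      _ ≤ X * X ^ (14 * lam + 15) := Nat.mul_le_mul_right _ h2X
      _ = X ^ (14 * lam + 16) := by ring
  have hRX : R ≤ X ^ (15 * lam + 7) := by
    have h1 : 2 * (c * (n + 1) ^ (3 * lam + 3)) ≤ X ^ (3 * lam + 3) := by
      calc 2 * (c * (n + 1) ^ (3 * lam + 3)) = (2 * c) * (n + 1) ^ (3 * lam + 3) := by ring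
        _ ≤ (2 * (c + 1)) ^ (3 * lam + 3) * (n + 1) ^ (3 * lam + 3) := by
            gcongr
            calc 2 * c ≤ (2 * (c + 1)) ^ 1 := by rw [pow_one]; omega
              _ ≤ (2 * (c + 1)) ^ (3 * lam + 3) := Nat.pow_le_pow_right (by omega) (by omega)
        _ = (2 * (c + 1) * (n + 1)) ^ (3 * lam + 3) := (mul_pow _ _ _).symm
        _ ≤ X ^ (3 * lam + 3) := by
            gcongr
            rw [hX]
            calc 2 * (c + 1) * (n + 1) = 2 * (c + 1) * (n + 1) * 1 * 1 := by ring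
              _ ≤ 2 * (c + 1) * (n + 1) * (w + 1) * (d + 1) := by gcongr <;> omega
    have e1 : 2 + (2 * lam + 1) + lam = 3 * lam + 3 := by ring
    rw [e1] at hR
    calc R ≤ X ^ (3 * lam + 3) * (X ^ 4) ^ (2 * lam + 1 + lam) := hR.trans (by gcongr)
      _ = X ^ (15 * lam + 7) := by rw [← pow_mul, ← pow_add]; congr 1; ring
  calc _ ≤ X ^ (14 * lam + 16) * X ^ (15 * lam + 7) := Nat.mul_le_mul hPV hRX
    _ = X ^ (29 * lam + 23) := by rw [← pow_add]; congr 1; ring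

end Pool.Agent.V8H74.SR
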