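import Pool.Agent.V8H74.SR.Defs

/-!
# Sums of read-once oblivious programs: the structure lemma on the Boolean cube
-/

set_option autoImplicit false

namespace Pool.Agent.V8H74.SR.Cube

open Finset
open scoped Matrix

/-! ### counting in a word -/

/-- a segment with at most `q` elements of `Φ` and with exactly `ℓ` elements of `T` -/
theorem seg_list {ι : Type} [DecidableEq ι] {T Φ : Finset ι} (hd : Disjoint T Φ) {ℓ q : ℕ}
    (hℓ : 1 ≤ ℓ) : ∀ (w cur : List ι), cur.countP (· ∈ Φ) ≤ q → cur.countP (· ∈ T) ≤ ℓ - 1 →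
      (ℓ - 1) * ((cur.countP (· ∈ Φ) + w.countP (· ∈ Φ)) / (q + 1) + 1) <
        cur.countP (· ∈ T) + w.countP (· ∈ T) →
      ∃ l₁ l₂ l₃, cur ++ w = l₁ ++ l₂ ++ l₃ ∧ l₂.countP (· ∈ Φ) ≤ q ∧
        l₂.countP (· ∈ T) = ℓ := by
  intro w
  induction w with
  | nil =>
    intro cur _ h2 h3
    rw [List.countP_nil, List.countP_nil] at h3
    have h4 : (ℓ - 1) * 1 ≤ (ℓ - 1) * ((cur.countP (· ∈ Φ) + 0) / (q + 1) + 1) :=
      Nat.mul_le_mul_left _ (Nat.le_add_left _ _)
    omega
  | cons v w ih =>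
    intro cur h1 h2 h3
    rw [List.countP_cons, List.countP_cons] at h3
    have eT : (cur ++ [v]).countP (· ∈ T) = cur.countP (· ∈ T) + if v ∈ T then 1 else 0 := by
      rw [List.countP_append]
      by_cases h : v ∈ T <;> simp [h]
    have eΦ : (cur ++ [v]).countP (· ∈ Φ) = cur.countP (· ∈ Φ) + if v ∈ Φ then 1 else 0 := by
      rw [List.countP_append]
      by_cases h : v ∈ Φ <;> simp [h]
    by_cases hv : v ∈ Φ
    · have hvT : v ∉ T := fun h => Finset.disjoint_left.1 hd h hv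
      simp only [hv, hvT, decide_true, decide_false, if_true, Bool.false_eq_true, if_false,
        add_zero] at h3
      rw [if_neg hvT] at eT
      rw [if_pos hv] at eΦ
      by_cases hc : cur.countP (· ∈ Φ) + 1 ≤ q
      · obtain ⟨l₁, l₂, l₃, e, h5, h6⟩ := ih (cur ++ [v]) (by rw [eΦ]; exact hc)
          (by rw [eT]; omega) (by
            rw [eT, eΦ]
            have e1 : cur.countP (· ∈ Φ) + 1 + w.countP (· ∈ Φ) =
              cur.countP (· ∈ Φ) + (w.countP (· ∈ Φ) + 1) := by ring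
            rw [e1]
            omega)
        refine ⟨l₁, l₂, l₃, ?_, h5, h6⟩
        rw [← e]
        simp
      · have hq : cur.countP (· ∈ Φ) = q := by omega
        have h4 : (ℓ - 1) * ((([] : List ι).countP (· ∈ Φ) + w.countP (· ∈ Φ)) / (q + 1) + 1) <
            ([] : List ι).countP (· ∈ T) + w.countP (· ∈ T) := by
          rw [List.countP_nil, List.countP_nil, zero_add, zero_add]
          have e1 : cur.countP (· ∈ Φ) + (w.countP (· ∈ Φ) + 1) = (q + 1) + w.countP (· ∈ Φ) := by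
            omega
          rw [e1, Nat.add_div_left _ (Nat.succ_pos q)] at h3
          have e2 : (ℓ - 1) * (w.countP (· ∈ Φ) / (q + 1) + 1 + 1) =
              (ℓ - 1) * (w.countP (· ∈ Φ) / (q + 1) + 1) + (ℓ - 1) := by ring
          have e3 : (w.countP (· ∈ Φ) / (q + 1)).succ + 1 = w.countP (· ∈ Φ) / (q + 1) + 1 + 1 := rfl
          rw [e3, e2] at h3
          omega
        obtain ⟨l₁, l₂, l₃, e, h5, h6⟩ := ih [] (by simp) (by simp) h4
        refine ⟨cur ++ v :: l₁, l₂, l₃, ?_, h5, h6⟩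
        rw [List.nil_append] at e
        rw [e]
        simp
    · by_cases hvT : v ∈ T
      · simp only [hv, hvT, decide_true, decide_false, if_true, Bool.false_eq_true, if_false,
          add_zero] at h3
        rw [if_pos hvT] at eT
        rw [if_neg hv] at eΦ
        by_cases hc : cur.countP (· ∈ T) + 1 = ℓ
        · exact ⟨[], cur ++ [v], w, by simp, by rw [eΦ]; exact h1, by rw [eT, hc]⟩
        · obtain ⟨l₁, l₂, l₃, e, h5, h6⟩ := ih (cur ++ [v]) (by rw [eΦ]; exact h1)
            (by rw [eT]; omega) (by rw [eT, eΦ, add_zero]; omega)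
          refine ⟨l₁, l₂, l₃, ?_, h5, h6⟩
          rw [← e]
          simp
      · simp only [hv, hvT, decide_false, Bool.false_eq_true, if_false, add_zero] at h3
        rw [if_neg hvT] at eT
        rw [if_neg hv] at eΦ
        obtain ⟨l₁, l₂, l₃, e, h5, h6⟩ := ih (cur ++ [v]) (by rw [eΦ]; exact h1)
          (by rw [eT]; exact h2) (by rw [eT, eΦ]; exact h3)
        refine ⟨l₁, l₂, l₃, ?_, h5, h6⟩
        rw [← e]
        simp

theorem countP_card {ι : Type} [DecidableEq ι] (T : Finset ι) (l : List ι) (h : l.Nodup) :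
    (T ∩ l.toFinset).card = l.countP (· ∈ T) := by
  rw [List.countP_eq_length_filter, ← List.toFinset_card_of_nodup (h.filter _)]
  congr 1
  ext v
  simp only [Finset.mem_inter, List.mem_toFinset, List.mem_filter, decide_eq_true_eq]
  tauto

theorem seg {ι : Type} [DecidableEq ι] {T Φ : Finset ι} (hd : Disjoint T Φ) {ℓ q : ℕ}
    (hℓ : 1 ≤ ℓ) (w : List ι) (hw : w.Nodup) (hT : ∀ v ∈ T, v ∈ w) (hΦ : ∀ v ∈ Φ, v ∈ w)
    (h : (ℓ - 1) * (Φ.card / (q + 1) + 1) < T.card) :
    ∃ l₁ l₂ l₃, w = l₁ ++ l₂ ++ l₃ ∧ (Φ ∩ l₂.toFinset).card ≤ q ∧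
      (T ∩ l₂.toFinset).card = ℓ := by
  have e : ∀ A : Finset ι, (∀ v ∈ A, v ∈ w) → w.countP (· ∈ A) = A.card := by
    intro A hA
    rw [← countP_card A w hw]
    congr 1
    rw [Finset.inter_eq_left]
    intro v hv
    exact List.mem_toFinset.2 (hA v hv)
  obtain ⟨l₁, l₂, l₃, e1, h1, h2⟩ := seg_list hd hℓ w [] (q := q) (by simp) (by simp)
    (by rw [e T hT, e Φ hΦ, List.countP_nil, List.countP_nil, zero_add, zero_add]; exact h)
  rw [List.nil_append] at e1
  have hn : l₂.Nodup := by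
    rw [e1] at hw
    exact (List.nodup_append.1 (List.nodup_append.1 hw).1).2.1
  exact ⟨l₁, l₂, l₃, e1, by rw [countP_card _ _ hn]; exact h1, by rw [countP_card _ _ hn, h2]⟩

/-! ### combinations of values -/

section comb

variable {ι K : Type} [DecidableEq ι] [Field K]

/-- the combination of the values of `f` -/
def ev (S : List (K × Finset ι)) (f : Finset ι → K) (A : Finset ι) : K :=
  (S.map fun p => p.1 * f (p.2 ∪ A)).sum

/-- the next combination -/
def nxt (S : List (K × Finset ι)) (U : Finset ι) (B : List (K × Finset ι)) :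
    List (K × Finset ι) :=
  S.flatMap fun p => (p.1, p.2 ∪ U) :: B.map fun r => (-(p.1 * r.1), p.2 ∪ r.2)

theorem ev_cons (p : K × Finset ι) (S : List (K × Finset ι)) (f : Finset ι → K) (A : Finset ι) :
    ev (p :: S) f A = p.1 * f (p.2 ∪ A) + ev S f A := by
  unfold ev
  rw [List.map_cons, List.sum_cons]

theorem sum_lem (B : List (K × Finset ι)) (c : K) (X Y : Finset ι → K) :
    (B.map fun r => r.1 * (c * X r.2 + Y r.2)).sum =
      -(B.map fun r => -(c * r.1) * X r.2).sum + (B.map fun r => r.1 * Y r.2).sum := by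
  induction B with
  | nil => simp
  | cons r B ih =>
    simp only [List.map_cons, List.sum_cons, ih]
    ring

theorem sum_lem2 (B : List (K × Finset ι)) (c : K) (X Y : Finset ι → K) :
    (B.map fun r => r.1 * (c * X r.2 + Y r.2)).sum =
      c * (B.map fun r => r.1 * X r.2).sum + (B.map fun r => r.1 * Y r.2).sum := by
  induction B with
  | nil => simp
  | cons r B ih =>
    simp only [List.map_cons, List.sum_cons, ih]
    ring

theorem ev_nxt (S : List (K × Finset ι)) (U : Finset ι) (B : List (K × Finset ι))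
    (f : Finset ι → K) (A : Finset ι) :
    ev (nxt S U B) f A = ev S f (U ∪ A) - (B.map fun r => r.1 * ev S f (r.2 ∪ A)).sum := by
  induction S with
  | nil => simp [ev, nxt]
  | cons p S ih =>
    have e1 : ev (nxt (p :: S) U B) f A =
        (p.1 * f ((p.2 ∪ U) ∪ A) + (B.map fun r => -(p.1 * r.1) * f ((p.2 ∪ r.2) ∪ A)).sum) +
        ev (nxt S U B) f A := by
      unfold ev nxt
      rw [List.flatMap_cons, List.map_append, List.sum_append, List.map_cons, List.sum_cons,
        List.map_map]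
      rfl
    rw [e1, ih]
    simp only [Finset.union_assoc, ev_cons]
    rw [sum_lem B p.1 (fun V => f (p.2 ∪ (V ∪ A))) (fun V => ev S f (V ∪ A))]
    ring

theorem ev_sum {c : ℕ} (S : List (K × Finset ι)) (F : Fin c → Finset ι → K) (A : Finset ι) :
    ev S (fun z => ∑ i, F i z) A = ∑ i, ev S (F i) A := by
  induction S with
  | nil => simp [ev]
  | cons p S ih =>
    simp only [ev_cons]
    rw [ih, Finset.mul_sum, Finset.sum_add_distrib]

theorem ev_comb (S : List (K × Finset ι)) (U : Finset ι) (f : Finset ι → K) (A : Finset ι)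
    (B : List (K × Finset ι)) (h : ∀ p ∈ S, f (p.2 ∪ (U ∪ A)) =
      (B.map fun r => r.1 * f (p.2 ∪ (r.2 ∪ A))).sum) :
    ev S f (U ∪ A) = (B.map fun r => r.1 * ev S f (r.2 ∪ A)).sum := by
  induction S with
  | nil => simp [ev]
  | cons p S ih =>
    simp only [ev_cons]
    rw [sum_lem2 B p.1 (fun V => f (p.2 ∪ (V ∪ A))) (fun V => ev S f (V ∪ A)),
      ih fun p' hp' => h p' (List.mem_cons_of_mem _ hp'), h p List.mem_cons_self]

theorem lin_list {w : ℕ} (Lv Rv : Fin w → K) (P Q : Matrix (Fin w) (Fin w) K)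
    (V : Finset ι → Matrix (Fin w) (Fin w) K) (B : List (K × Finset ι)) :
    Lv ⬝ᵥ ((P * (B.map fun r => r.1 • V r.2).sum * Q) *ᵥ Rv) =
      (B.map fun r => r.1 * (Lv ⬝ᵥ ((P * V r.2 * Q) *ᵥ Rv))).sum := by
  induction B with
  | nil => simp
  | cons r B ih =>
    rw [List.map_cons, List.sum_cons, List.map_cons, List.sum_cons, ← ih, Matrix.mul_add,
      Matrix.add_mul, Matrix.add_mulVec, dotProduct_add, Matrix.mul_smul, Matrix.smul_mul,
      Matrix.smul_mulVec, dotProduct_smul, smul_eq_mul]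

end comb

section main

variable {ι K : Type} [DecidableEq ι] [Field K] {c : ℕ}

/-- the states of the induction -/
structure St (ℓ : ℕ) (F : Fin c → Finset ι → K) (T : Finset ι) (J : Finset (Fin c))
    (Φ : Finset ι) (S : List (K × Finset ι)) : Prop where
  sub : Φ ⊆ T
  card : Φ.card = J.card * ℓ
  mem : ∀ p ∈ S, p.2 ⊆ Φ
  Z : ∀ i ∈ J, ∀ A, A ⊆ T \ Φ → ev S (F i) A = 0
  N : ev S (fun z => ∑ i, F i z) (T \ Φ) = ∑ i, F i T
  m : ∀ A, A ⊂ T \ Φ → ev S (fun z => ∑ i, F i z) A = 0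

theorem St.kill {ℓ q w : ℕ} (word : Fin c → List ι) (hnd : ∀ i, (word i).Nodup) (T : Finset ι)
    (M : Fin c → ι → K → Matrix (Fin w) (Fin w) K) (x g : ι → K)
    (hrel : ∀ i (l₁ l₂ l₃ : List ι), word i = l₁ ++ l₂ ++ l₃ → ∀ U F : Finset ι, U ⊆ T → F ⊆ T →
      Disjoint U F → U.card = ℓ → F.card ≤ q → ∃ β : Finset ι → K, ∀ α, α ⊆ F →
        val (M i) l₂ (mix (U ∪ α) x g) = ∑ S ∈ U.ssubsets, β S • val (M i) l₂ (mix (S ∪ α) x g))
    (L R : Fin c → Fin w → K) {F : Fin c → Finset ι → K}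
    (hF : ∀ i A, F i A = L i ⬝ᵥ (val (M i) (word i) (mix A x g) *ᵥ R i))
    {J : Finset (Fin c)} {Φ : Finset ι} {S : List (K × Finset ι)}
    (h : St ℓ F T J Φ S) {i : Fin c} (hi : i ∉ J) {l₁ l₂ l₃ : List ι}
    (hw : word i = l₁ ++ l₂ ++ l₃) (hΦ : (Φ ∩ l₂.toFinset).card ≤ q) {U : Finset ι}
    (hU : U = (T \ Φ) ∩ l₂.toFinset) (hUc : U.card = ℓ) :
    ∃ S', St ℓ F T (insert i J) (Φ ∪ U) S' := by
  have hUT : U ⊆ T \ Φ := by rw [hU]; exact Finset.inter_subset_left
  have hUT' : U ⊆ T := hUT.trans Finset.sdiff_subset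
  have hUl : ∀ v ∈ U, v ∈ l₂ := by
    intro v hv
    rw [hU, Finset.mem_inter, List.mem_toFinset] at hv
    exact hv.2
  have hd : Disjoint Φ U := by
    rw [Finset.disjoint_left]
    intro v h1 h2
    exact (Finset.mem_sdiff.1 (hUT h2)).2 h1
  obtain ⟨β, hβ⟩ := hrel i l₁ l₂ l₃ hw U (Φ ∩ l₂.toFinset) hUT'
    (Finset.inter_subset_left.trans h.sub)
    (Finset.disjoint_of_subset_right Finset.inter_subset_left hd.symm) hUc hΦ
  obtain ⟨B, hB⟩ : ∃ B : List (K × Finset ι), B = U.ssubsets.toList.map fun V => (β V, V) :=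
    ⟨_, rfl⟩
  have hBm : ∀ r ∈ B, r.2 ⊂ U := by
    intro r hr
    rw [hB, List.mem_map] at hr
    obtain ⟨V, hV, rfl⟩ := hr
    exact Finset.mem_ssubsets.1 (Finset.mem_toList.1 hV)
  have hβ' : ∀ α, α ⊆ Φ ∩ l₂.toFinset → val (M i) l₂ (mix (U ∪ α) x g) =
      (B.map fun r => r.1 • val (M i) l₂ (mix (r.2 ∪ α) x g)).sum := by
    intro α hα
    rw [hβ α hα, hB, List.map_map]
    exact (Finset.sum_map_toList _ _).symm
  have hnd' := hnd i
  rw [hw] at hnd'
  have hn1 : ∀ v ∈ l₁, v ∉ l₂ := by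
    intro v h1 h2
    exact (List.nodup_append.1 (List.nodup_append.1 hnd').1).2.2 v h1 v h2 rfl
  have hn3 : ∀ v ∈ l₃, v ∉ l₂ := by
    intro v h1 h2
    exact (List.nodup_append.1 hnd').2.2 v (List.mem_append_right _ h2) v h1 rfl
  have hTΦU : T \ (Φ ∪ U) ⊆ T \ Φ := Finset.sdiff_subset_sdiff le_rfl Finset.subset_union_left
  refine ⟨nxt S U B, ?_, ?_, ?_, ?_, ?_, ?_⟩
  · exact Finset.union_subset h.sub hUT'
  · rw [Finset.card_union_of_disjoint hd, h.card, hUc, Finset.card_insert_of_notMem hi]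
    ring
  · intro p hp
    unfold nxt at hp
    rw [List.mem_flatMap] at hp
    obtain ⟨p', hp', hp⟩ := hp
    have h1 := h.mem p' hp'
    rw [List.mem_cons] at hp
    rcases hp with rfl | hp
    · exact Finset.union_subset_union h1 le_rfl
    · rw [List.mem_map] at hp
      obtain ⟨r, hr, rfl⟩ := hp
      exact Finset.union_subset_union h1 (hBm r hr).subset
  · intro j hj A hA
    rw [ev_nxt]
    rw [Finset.mem_insert] at hj
    rcases hj with hj | hj
    · subst hj
      have hAl : ∀ v ∈ A, v ∉ l₂ := by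
        intro v hv hvl
        have h1 := Finset.mem_sdiff.1 (hA hv)
        rw [Finset.mem_union, not_or] at h1
        exact h1.2.2 (by
          rw [hU]
          exact Finset.mem_inter.2 ⟨Finset.mem_sdiff.2 ⟨h1.1, h1.2.1⟩, List.mem_toFinset.2 hvl⟩)
      -- the new program
      have key : ∀ p ∈ S, ∀ V, V ⊆ U → F j (p.2 ∪ (V ∪ A)) =
          L j ⬝ᵥ ((val (M j) l₁ (mix (p.2 ∪ A) x g) *
            val (M j) l₂ (mix (V ∪ (p.2 ∩ l₂.toFinset)) x g) *
            val (M j) l₃ (mix (p.2 ∪ A) x g)) *ᵥ R j) := by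
        intro p hp V hV
        rw [hF, hw, val_append, val_append]
        have c1 : ∀ l : List ι, (∀ v ∈ l, v ∉ l₂) →
            val (M j) l (mix (p.2 ∪ (V ∪ A)) x g) = val (M j) l (mix (p.2 ∪ A) x g) := by
          intro l hl
          refine val_congr _ _ _ _ fun v hv => ?_
          have h1 : v ∉ V := fun h2 => hl v hv (hUl v (hV h2))
          unfold mix
          simp only [Finset.mem_union, h1, false_or]
        have c2 : val (M j) l₂ (mix (p.2 ∪ (V ∪ A)) x g) =
            val (M j) l₂ (mix (V ∪ (p.2 ∩ l₂.toFinset)) x g) := by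
          refine val_congr _ _ _ _ fun v hv => ?_
          have h1 : v ∉ A := fun h2 => hAl v h2 hv
          have h2 : v ∈ l₂.toFinset := List.mem_toFinset.2 hv
          unfold mix
          simp only [Finset.mem_union, Finset.mem_inter, h1, h2, or_false, and_true]
          exact if_congr or_comm rfl rfl
        rw [c1 l₁ hn1, c1 l₃ hn3, c2]
      rw [ev_comb S U (F j) A B, sub_self]
      intro p hp
      rw [key p hp U le_rfl, hβ' _ (Finset.inter_subset_inter (h.mem p hp) le_rfl),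
        lin_list (L j) (R j) _ _ (fun V => val (M j) l₂ (mix (V ∪ (p.2 ∩ l₂.toFinset)) x g))]
      congr 1
      refine List.map_congr_left fun r hr => ?_
      rw [key p hp r.2 (hBm r hr).subset]
    · have e1 : ∀ V, V ⊆ U → ev S (F j) (V ∪ A) = 0 := by
        intro V hV
        exact h.Z j hj _ (Finset.union_subset (hV.trans hUT) (hA.trans hTΦU))
      rw [e1 U le_rfl, zero_sub, neg_eq_zero]
      refine List.sum_eq_zero fun r hr => ?_
      rw [List.mem_map] at hr
      obtain ⟨r', hr', rfl⟩ := hr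
      rw [e1 _ (hBm r' hr').subset, mul_zero]
  · rw [ev_nxt]
    have e1 : U ∪ T \ (Φ ∪ U) = T \ Φ := by
      ext v
      have h1 : v ∈ U → v ∈ T ∧ v ∉ Φ := fun h => Finset.mem_sdiff.1 (hUT h)
      simp only [Finset.mem_union, Finset.mem_sdiff]
      tauto
    have e2 : (B.map fun r => r.1 * ev S (fun z => ∑ i, F i z) (r.2 ∪ T \ (Φ ∪ U))).sum = 0 := by
      refine List.sum_eq_zero fun r hr => ?_
      rw [List.mem_map] at hr
      obtain ⟨r', hr', rfl⟩ := hr
      have h1 := hBm r' hr'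
      rw [h.m, mul_zero]
      rw [Finset.ssubset_iff_of_subset (Finset.union_subset (h1.subset.trans hUT) hTΦU)]
      obtain ⟨v, hv, hv'⟩ := Finset.exists_of_ssubset h1
      refine ⟨v, hUT hv, ?_⟩
      rw [Finset.mem_union, not_or]
      refine ⟨hv', fun h2 => ?_⟩
      exact (Finset.mem_sdiff.1 h2).2 (Finset.mem_union_right _ hv)
    rw [e1, e2, sub_zero, h.N]
  · intro A hA
    have e1 : ∀ V, V ⊆ U → ev S (fun z => ∑ i, F i z) (V ∪ A) = 0 := by
      intro V hV
      apply h.m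
      rw [Finset.ssubset_iff_of_subset (Finset.union_subset (hV.trans hUT)
        (hA.subset.trans hTΦU))]
      obtain ⟨v, hv, hv'⟩ := Finset.exists_of_ssubset hA
      refine ⟨v, hTΦU hv, ?_⟩
      rw [Finset.mem_union, not_or]
      refine ⟨fun h2 => ?_, hv'⟩
      exact (Finset.mem_sdiff.1 hv).2 (Finset.mem_union_right _ (hV h2))
    rw [ev_nxt, e1 U le_rfl, zero_sub, neg_eq_zero]
    refine List.sum_eq_zero fun r hr => ?_
    rw [List.mem_map] at hr
    obtain ⟨r', hr', rfl⟩ := hr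
    rw [e1 _ (hBm r' hr').subset, mul_zero]

end main

/-- **The structure lemma on the Boolean cube.** -/
theorem struct {ι K : Type} [DecidableEq ι] [Field K] {c w ℓ q : ℕ} (hℓ : 1 ≤ ℓ)
    (word : Fin c → List ι) (hnd : ∀ i, (word i).Nodup) (T : Finset ι) (hT : ∀ i, ∀ v ∈ T, v ∈ word i)
    (M : Fin c → ι → K → Matrix (Fin w) (Fin w) K) (x g : ι → K)
    (hrel : ∀ i (l₁ l₂ l₃ : List ι), word i = l₁ ++ l₂ ++ l₃ → ∀ U F : Finset ι, U ⊆ T → F ⊆ T →
      Disjoint U F → U.card = ℓ → F.card ≤ q → ∃ β : Finset ι → K, ∀ α, α ⊆ F →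
        val (M i) l₂ (mix (U ∪ α) x g) = ∑ S ∈ U.ssubsets, β S • val (M i) l₂ (mix (S ∪ α) x g))
    (L R : Fin c → Fin w → K)
    (hbig : (ℓ - 1) * ((c - 1) * ℓ / (q + 1) + 1) + (c - 1) * ℓ < T.card)
    (hzero : ∀ A, A ⊂ T → ∑ i, L i ⬝ᵥ (val (M i) (word i) (mix A x g) *ᵥ R i) = 0) :
    ∑ i, L i ⬝ᵥ (val (M i) (word i) (mix T x g) *ᵥ R i) = 0 := by
  obtain ⟨F, hF⟩ : ∃ F : Fin c → Finset ι → K,
    F = fun i A => L i ⬝ᵥ (val (M i) (word i) (mix A x g) *ᵥ R i) := ⟨_, rfl⟩
  have hF' : ∀ i A, F i A = L i ⬝ᵥ (val (M i) (word i) (mix A x g) *ᵥ R i) :=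
    fun i A => by rw [hF]
  simp only [← hF'] at hzero ⊢
  have main : ∀ (d : ℕ) (J : Finset (Fin c)) (Φ : Finset ι) (S : List (K × Finset ι)),
      J.card + d = c → St ℓ F T J Φ S → ∑ i, F i T = 0 := by
    intro d
    induction d with
    | zero =>
      intro J Φ S hJ h
      have hJu : J = univ := by
        apply Finset.eq_univ_of_card
        rw [Fintype.card_fin]
        exact hJ
      rw [← h.N, ev_sum]
      exact Finset.sum_eq_zero fun i _ => h.Z i (by rw [hJu]; exact Finset.mem_univ i) _ le_rfl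
    | succ d ih =>
      intro J Φ S hJ h
      obtain ⟨i, hi⟩ : ∃ i, i ∉ J := by
        by_contra hcon
        push Not at hcon
        have hJu : J = univ := Finset.eq_univ_of_forall hcon
        rw [hJu, Finset.card_univ, Fintype.card_fin] at hJ
        omega
      have h1 : (ℓ - 1) * (Φ.card / (q + 1) + 1) < (T \ Φ).card := by
        have h2 := Finset.card_sdiff_add_card_eq_card h.sub
        have h3 : Φ.card ≤ (c - 1) * ℓ := by
          rw [h.card]
          exact Nat.mul_le_mul_right _ (by omega)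
        have h4 : (ℓ - 1) * (Φ.card / (q + 1) + 1) ≤ (ℓ - 1) * ((c - 1) * ℓ / (q + 1) + 1) :=
          Nat.mul_le_mul_left _ (Nat.add_le_add_right (Nat.div_le_div_right h3) _)
        omega
      obtain ⟨l₁, l₂, l₃, hw, hΦ, hc⟩ := seg Finset.sdiff_disjoint hℓ (word i) (hnd i)
        (fun v hv => hT i v (Finset.mem_sdiff.1 hv).1) (fun v hv => hT i v (h.sub hv)) h1
      obtain ⟨S', hS'⟩ := h.kill word hnd T M x g hrel L R hF' hi hw hΦ rfl hc
      exact ih _ _ _ (by rw [Finset.card_insert_of_notMem hi]; omega) hS'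
  refine main c ∅ ∅ [(1, ∅)] (by simp) ⟨Finset.empty_subset _, by simp, ?_,
    fun i hi => absurd hi (Finset.notMem_empty i), ?_, ?_⟩
  · intro p hp
    rw [List.mem_singleton] at hp
    rw [hp]
  · rw [Finset.sdiff_empty]
    simp [ev]
  · intro A hA
    rw [Finset.sdiff_empty] at hA
    have := hzero A hA
    simpa [ev] using this

end Pool.Agent.V8H74.SR.Cube
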