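import Pool.Agent.V8H74.SR.Point
import Pool.Agent.V8H74.SR.Struct2

/-!
# Sums of read-once programs: support of a nonvanishing point, polynomials
-/

set_option autoImplicit false

namespace Pool.Agent.V8H74.SR

open Module Function
open scoped Matrix

variable {K : Type} [Field K] {c n w d : ℕ}

/-- The value of the sum of the programs at the point `z`. -/
def sumVal (A : Fin c → Fin n → Fin (d + 1) → Matrix (Fin w) (Fin w) K) (σ : Fin c → Equiv.Perm (Fin n))
    (L R : Fin c → Fin w → K) (z : Fin n → K) : K :=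
  ∑ i, L i ⬝ᵥ (val (fun v => atPoint (A i v)) (word (σ i)) z *ᵥ R i)

theorem sumVal_sep (A : Fin c → Fin n → Fin (d + 1) → Matrix (Fin w) (Fin w) K)
    (σ : Fin c → Equiv.Perm (Fin n)) (L R : Fin c → Fin w → K) : Sep d (sumVal A σ L R) := by
  refine Sep.sum Finset.univ (fun i z => L i ⬝ᵥ (val (fun v => atPoint (A i v)) (word (σ i)) z *ᵥ R i))
    fun i _ => ?_
  let φ : Matrix (Fin w) (Fin w) K →ₗ[K] K :=
    { toFun := fun m => L i ⬝ᵥ (m *ᵥ R i)
      map_add' := fun m m' => by rw [Matrix.add_mulVec, dotProduct_add]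
      map_smul' := fun a m => by rw [Matrix.smul_mulVec, dotProduct_smul]; rfl }
  exact val_vsep (fun v => atPoint (A i v)) (fun v p q => atPoint_poly (A i v) p q) (word (σ i))
    (word_nodup (σ i)) φ

/-- A sum of programs which is not zero is nonzero at a point which differs from a good base point in few
coordinates. -/
theorem support [CharZero K] (N : ℕ) (A : Fin c → Fin n → Fin (d + 1) → Matrix (Fin w) (Fin w) K)
    (σ : Fin c → Equiv.Perm (Fin n)) (ℓ q : ℕ) (hℓ1 : 1 ≤ ℓ) (hN : 2 ^ q * w ^ 2 * d ≤ N) (g : Fin n → K)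
    (hgood : ∀ κ ∈ conds c n ℓ q,
      maxRank N (A κ.1) (σ κ.1) κ.2.1 κ.2.2.1 κ.2.2.2.2 κ.2.2.2.1.powerset g ≤
      maxRank N (A κ.1) (σ κ.1) κ.2.1 κ.2.2.1 κ.2.2.2.2 κ.2.2.2.1.ssubsets g)
    (L R : Fin c → Fin w → K) (hne : ∃ z, sumVal A σ L R z ≠ 0) :
    ∃ T : Finset (Fin n), T.card ≤ (ℓ - 1) * ((c - 1) * ℓ / (q + 1) + 1) + (c - 1) * ℓ ∧
      ∃ x : Fin n → Fin (d + 1), sumVal A σ L R (mix T (fun v => ((x v : ℕ) : K)) g) ≠ 0 := by
  classical
  obtain ⟨z, hz⟩ := hne
  have huniv : mix Finset.univ z g = z := by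
    funext v
    simp [mix]
  have hex : ∃ m, ∃ T : Finset (Fin n), T.card = m ∧ ∃ x, sumVal A σ L R (mix T x g) ≠ 0 :=
    ⟨_, Finset.univ, rfl, z, by rw [huniv]; exact hz⟩
  obtain ⟨T, hT, x₀, hx₀⟩ := Nat.find_spec hex
  have hmin : ∀ T' : Finset (Fin n), T'.card < T.card → ∀ x, sumVal A σ L R (mix T' x g) = 0 := by
    intro T' hT' x
    by_contra h
    exact Nat.find_min hex (hT ▸ hT') ⟨T', rfl, x, h⟩
  refine ⟨T, ?_, ?_⟩
  · by_contra hbig
    push Not at hbig
    obtain ⟨x, hx, hrel⟩ := generic_point N A σ ℓ q hN g hgood (fun x => sumVal A σ L R (mix T x g)) d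
      ((sumVal_sep A σ L R).mix_left T g) ⟨x₀, hx₀⟩
    refine hx (Cube.struct hℓ1 (fun i => word (σ i)) (fun i => word_nodup (σ i)) T
      (fun i v _ => mem_word (σ i) v) (fun i v => atPoint (A i v)) x g ?_ L R hbig
      (fun B hB => hmin B (Finset.card_lt_card hB) x))
    intro i l₁ l₂ l₃ hw U F _ _ hUF hU hF
    have hlen : l₁.length + l₂.length + l₃.length = n := by
      have h1 := congrArg List.length hw
      simp only [word, List.length_map, List.length_finRange, List.length_append] at h1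
      omega
    have hmem : ((i, ⟨l₁.length, by omega⟩, ⟨l₁.length + l₂.length, by omega⟩, U, F) :
        Fin c × Fin (n + 1) × Fin (n + 1) × Finset (Fin n) × Finset (Fin n)) ∈ conds c n ℓ q := by
      simp [conds, hU, hF, hUF]
    have h1 := hrel _ hmem
    simp only at h1
    rw [Submodule.mem_span_image_finset_iff_exists_fun'] at h1
    obtain ⟨β, hβ⟩ := h1
    have hseg : segment (σ i) l₁.length (l₁.length + l₂.length) = l₂ := by
      unfold segment
      rw [hw, List.take_left' (by rw [List.length_append]), List.drop_left]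
    refine ⟨β, fun α hα => ?_⟩
    have h2 := congrFun hβ ⟨α, hα⟩
    rw [Finset.sum_apply] at h2
    simp only [Pi.smul_apply, corner, segVal, hseg] at h2
    exact h2.symm
  · obtain ⟨y, hy, hy1, -⟩ := grid_two ((sumVal_sep A σ L R).mix_left T g)
      (Sep.const (ι := Fin n) (K := K) 0 1) Finset.univ x₀ x₀ (fun _ _ => rfl) hx₀ one_ne_zero
    have h4 : mix Finset.univ (fun v => (y v : K)) x₀ = fun v => (y v : K) := by
      funext v
      simp [mix]
    rw [h4] at hy1
    exact ⟨fun v => ⟨y v, Nat.lt_succ_of_le (by simpa using hy v)⟩, hy1⟩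

/-! ### Polynomials -/

/-- The matrix of polynomials with which the variable `v` is read. -/
noncomputable def polyMat (A : Fin (d + 1) → Matrix (Fin w) (Fin w) K) (v : Fin n) :
    Matrix (Fin w) (Fin w) (MvPolynomial (Fin n) K) :=
  ∑ j : Fin (d + 1), (MvPolynomial.X v : MvPolynomial (Fin n) K) ^ (j : ℕ) • (A j).map MvPolynomial.C

/-- The polynomial computed by a sum of read-once programs. -/
noncomputable def sumPoly (A : Fin c → Fin n → Fin (d + 1) → Matrix (Fin w) (Fin w) K)
    (σ : Fin c → Equiv.Perm (Fin n)) (L R : Fin c → Fin w → K) : MvPolynomial (Fin n) K :=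
  ∑ i, ∑ p, ∑ r, MvPolynomial.C (L i p) * ((word (σ i)).map fun v => polyMat (A i v) v).prod p r *
    MvPolynomial.C (R i r)

theorem eval_sumPoly (A : Fin c → Fin n → Fin (d + 1) → Matrix (Fin w) (Fin w) K)
    (σ : Fin c → Equiv.Perm (Fin n)) (L R : Fin c → Fin w → K) (z : Fin n → K) :
    MvPolynomial.eval z (sumPoly A σ L R) = sumVal A σ L R z := by
  unfold sumPoly sumVal
  simp only [map_sum, map_mul, MvPolynomial.eval_C]
  refine Finset.sum_congr rfl fun i _ => ?_
  have h1 : ((word (σ i)).map fun v => polyMat (A i v) v).prod.map (MvPolynomial.eval z) =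
      val (fun v => atPoint (A i v)) (word (σ i)) z := by
    have h2 := map_list_prod (MvPolynomial.eval z).mapMatrix ((word (σ i)).map fun v => polyMat (A i v) v)
    rw [RingHom.mapMatrix_apply] at h2
    rw [h2, List.map_map]
    unfold val
    congr 1
    refine List.map_congr_left fun v _ => ?_
    ext p r
    simp only [comp_apply, RingHom.mapMatrix_apply, Matrix.map_apply, polyMat, atPoint, Matrix.sum_apply,
      Matrix.smul_apply, smul_eq_mul, map_sum, map_mul, map_pow, MvPolynomial.eval_X, MvPolynomial.eval_C]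
  rw [← h1]
  simp only [dotProduct, Matrix.mulVec, Matrix.map_apply, Finset.mul_sum, mul_assoc]

theorem sumPoly_eq_zero_iff [CharZero K] (A : Fin c → Fin n → Fin (d + 1) → Matrix (Fin w) (Fin w) K)
    (σ : Fin c → Equiv.Perm (Fin n)) (L R : Fin c → Fin w → K) :
    sumPoly A σ L R = 0 ↔ ∀ z, sumVal A σ L R z = 0 := by
  constructor
  · intro h z
    rw [← eval_sumPoly, h, map_zero]
  · intro h
    refine MvPolynomial.funext fun z => ?_
    rw [eval_sumPoly, h, map_zero]

end Pool.Agent.V8H74.SR
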