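import Mathlib

/-!
# Sums of read-once programs: numerical bounds
-/

set_option autoImplicit false

namespace Pool.Agent.V8H74.SR

theorem two_pow_log_le (w : ℕ) : 2 ^ Nat.log 2 (w ^ 2) * w ^ 2 ≤ w ^ 4 := by
  rcases Nat.eq_zero_or_pos w with rfl | hw
  · simp
  · have h := Nat.pow_log_le_self 2 (x := w ^ 2) (by positivity)
    calc 2 ^ Nat.log 2 (w ^ 2) * w ^ 2 ≤ w ^ 2 * w ^ 2 := Nat.mul_le_mul_right _ h
      _ = w ^ 4 := by ring

theorem lt_two_pow_log (w : ℕ) :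
    2 ^ Nat.log 2 (w ^ 2) * w ^ 2 < 2 ^ (2 * Nat.log 2 (w ^ 2) + 1) := by
  have h := Nat.lt_pow_succ_log_self (b := 2) (by norm_num) (w ^ 2)
  calc 2 ^ Nat.log 2 (w ^ 2) * w ^ 2 < 2 ^ Nat.log 2 (w ^ 2) * 2 ^ (Nat.log 2 (w ^ 2)).succ :=
        Nat.mul_lt_mul_of_pos_left h (by positivity)
    _ = 2 ^ (2 * Nat.log 2 (w ^ 2) + 1) := by rw [← pow_add]; congr 1; omega

theorem support_bound (c lam : ℕ) :
    (2 * lam + 1 - 1) * ((c - 1) * (2 * lam + 1) / (lam + 1) + 1) + (c - 1) * (2 * lam + 1) ≤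
      (c - 1) * (6 * lam + 1) + 2 * lam := by
  have h1 : (c - 1) * (2 * lam + 1) / (lam + 1) ≤ 2 * (c - 1) := by
    refine Nat.div_le_of_le_mul ?_
    calc (c - 1) * (2 * lam + 1) ≤ (c - 1) * (2 * lam + 2) := Nat.mul_le_mul_left _ (by omega)
      _ = (lam + 1) * (2 * (c - 1)) := by ring
  calc (2 * lam + 1 - 1) * ((c - 1) * (2 * lam + 1) / (lam + 1) + 1) + (c - 1) * (2 * lam + 1)
      ≤ (2 * lam) * (2 * (c - 1) + 1) + (c - 1) * (2 * lam + 1) := by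
        rw [Nat.add_sub_cancel]
        gcongr
    _ = (c - 1) * (6 * lam + 1) + 2 * lam := by ring

theorem cost_bound (c n w d : ℕ) {lam P N X : ℕ} (hlam : lam = Nat.log 2 (w ^ 2))
    (hP : P = 2 * (2 ^ lam * w ^ 2) * (c * (n + 1) ^ (2 + (2 * lam + 1) + lam)))
    (hN : N = (P + 2 ^ lam * w ^ 2) * d) (hX : X = 2 * (c + 1) * (n + 1) * (w + 1) * (d + 1)) :
    P + 1 ≤ X ^ (3 * lam + 4) ∧ N + 1 ≤ X ^ (3 * lam + 4) ∧
    ((P + 1) * (n.choose (2 * lam + 1) * (N + 1) ^ (2 * lam + 1)) + 1) *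
      (2 * (c * (n + 1) ^ (2 + (2 * lam + 1) + lam)) * (N + 1) ^ (2 * lam + 1 + lam)) ≤
      X ^ (17 * (lam + 1) ^ 2) := by
  have hX1 : 1 ≤ X := by rw [hX]; exact Nat.succ_le_of_lt (by positivity)
  have h2X : 2 ≤ X := by
    rw [hX]
    calc 2 = 2 * 1 * 1 * 1 * 1 := by norm_num
      _ ≤ 2 * (c + 1) * (n + 1) * (w + 1) * (d + 1) := by gcongr <;> omega
  have hnX : n + 1 ≤ X := by
    rw [hX]
    calc n + 1 = 1 * 1 * (n + 1) * 1 * 1 := by ring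
      _ ≤ 2 * (c + 1) * (n + 1) * (w + 1) * (d + 1) := by gcongr <;> omega
  have hw4 : 2 ^ lam * w ^ 2 ≤ w ^ 4 := by rw [hlam]; exact two_pow_log_le w
  have e1 : 2 + (2 * lam + 1) + lam = 3 * lam + 3 := by ring
  rw [e1] at hP ⊢
  have hpow1 : 1 ≤ (n + 1) ^ (3 * lam + 3) := Nat.one_le_pow _ _ (Nat.succ_pos n)
  have hkey : 2 * (c + 1) * (w + 1) ^ 4 * (n + 1) ^ (3 * lam + 3) * (d + 1) ≤ X ^ (3 * lam + 4) := by
    calc 2 * (c + 1) * (w + 1) ^ 4 * (n + 1) ^ (3 * lam + 3) * (d + 1)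
        = (2 * (c + 1) * (n + 1) * (w + 1) * (d + 1)) * ((w + 1) ^ 3 * (n + 1) ^ (3 * lam + 2)) := by ring
      _ ≤ X * ((w + 1) ^ (3 * lam + 3) * (n + 1) ^ (3 * lam + 3)) := by
          rw [← hX]
          gcongr <;> omega
      _ = X * ((w + 1) * (n + 1)) ^ (3 * lam + 3) := by rw [mul_pow]
      _ ≤ X * X ^ (3 * lam + 3) := by
          gcongr
          rw [hX]
          calc (w + 1) * (n + 1) = 1 * 1 * (n + 1) * (w + 1) * 1 := by ring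
            _ ≤ 2 * (c + 1) * (n + 1) * (w + 1) * (d + 1) := by gcongr <;> omega
      _ = X ^ (3 * lam + 4) := by ring
  have hww : w ^ 4 + 1 ≤ (w + 1) ^ 4 := by
    have : (w + 1) ^ 4 = w ^ 4 + 1 + (4 * w ^ 3 + 6 * w ^ 2 + 4 * w) := by ring
    omega
  have hP4 : P + w ^ 4 + 1 ≤ 2 * (c + 1) * (w + 1) ^ 4 * (n + 1) ^ (3 * lam + 3) := by
    have h3 : P ≤ 2 * w ^ 4 * (c * (n + 1) ^ (3 * lam + 3)) := by
      rw [hP]
      gcongr
    calc P + w ^ 4 + 1 ≤ 2 * w ^ 4 * (c * (n + 1) ^ (3 * lam + 3)) + (w + 1) ^ 4 := by omega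
      _ ≤ 2 * (w + 1) ^ 4 * (c * (n + 1) ^ (3 * lam + 3)) + 2 * (w + 1) ^ 4 * (n + 1) ^ (3 * lam + 3) := by
          gcongr
          · omega
          · nlinarith [Nat.zero_le ((w + 1) ^ 4), hpow1]
      _ = 2 * (c + 1) * (w + 1) ^ 4 * (n + 1) ^ (3 * lam + 3) := by ring
  have hPX : P + 1 ≤ X ^ (3 * lam + 4) := by
    refine le_trans ?_ hkey
    calc P + 1 ≤ P + w ^ 4 + 1 := by omega
      _ ≤ 2 * (c + 1) * (w + 1) ^ 4 * (n + 1) ^ (3 * lam + 3) := hP4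
      _ ≤ 2 * (c + 1) * (w + 1) ^ 4 * (n + 1) ^ (3 * lam + 3) * (d + 1) := Nat.le_mul_of_pos_right _ (Nat.succ_pos d)
  have hNX : N + 1 ≤ X ^ (3 * lam + 4) := by
    refine le_trans ?_ hkey
    calc N + 1 ≤ (P + w ^ 4) * d + 1 := by
          rw [hN]
          gcongr
      _ ≤ (P + w ^ 4 + 1) * (d + 1) := by nlinarith [Nat.zero_le P, Nat.zero_le (w ^ 4), Nat.zero_le d]
      _ ≤ 2 * (c + 1) * (w + 1) ^ 4 * (n + 1) ^ (3 * lam + 3) * (d + 1) := Nat.mul_le_mul_right _ hP4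
  refine ⟨hPX, hNX, ?_⟩
  have hA : (P + 1) * (n.choose (2 * lam + 1) * (N + 1) ^ (2 * lam + 1)) ≤
      X ^ ((3 * lam + 4) + ((2 * lam + 1) + (3 * lam + 4) * (2 * lam + 1))) := by
    calc (P + 1) * (n.choose (2 * lam + 1) * (N + 1) ^ (2 * lam + 1))
        ≤ X ^ (3 * lam + 4) * (X ^ (2 * lam + 1) * (X ^ (3 * lam + 4)) ^ (2 * lam + 1)) := by
          gcongr
          exact (Nat.choose_le_pow n (2 * lam + 1)).trans (Nat.pow_le_pow_left (by omega) _)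
      _ = _ := by rw [← pow_mul, ← pow_add, ← pow_add]
  have hA1 : (P + 1) * (n.choose (2 * lam + 1) * (N + 1) ^ (2 * lam + 1)) + 1 ≤
      X ^ (1 + ((3 * lam + 4) + ((2 * lam + 1) + (3 * lam + 4) * (2 * lam + 1)))) := by
    have h1 : 1 ≤ X ^ ((3 * lam + 4) + ((2 * lam + 1) + (3 * lam + 4) * (2 * lam + 1))) :=
      Nat.one_le_pow _ _ hX1
    calc (P + 1) * (n.choose (2 * lam + 1) * (N + 1) ^ (2 * lam + 1)) + 1
        ≤ 2 * X ^ ((3 * lam + 4) + ((2 * lam + 1) + (3 * lam + 4) * (2 * lam + 1))) := by omega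
      _ ≤ X * X ^ ((3 * lam + 4) + ((2 * lam + 1) + (3 * lam + 4) * (2 * lam + 1))) := by gcongr
      _ = _ := by rw [pow_add X 1, pow_one]
  have hB : 2 * (c * (n + 1) ^ (3 * lam + 3)) * (N + 1) ^ (2 * lam + 1 + lam) ≤
      X ^ ((3 * lam + 3) + (3 * lam + 4) * (2 * lam + 1 + lam)) := by
    have h1 : 2 * (c * (n + 1) ^ (3 * lam + 3)) ≤ X ^ (3 * lam + 3) := by
      calc 2 * (c * (n + 1) ^ (3 * lam + 3)) = (2 * c) * (n + 1) ^ (3 * lam + 3) := by ring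
        _ ≤ (2 * (c + 1)) ^ (3 * lam + 3) * (n + 1) ^ (3 * lam + 3) := by
            gcongr
            calc 2 * c ≤ (2 * (c + 1)) ^ 1 := by rw [pow_one]; omega
              _ ≤ (2 * (c + 1)) ^ (3 * lam + 3) := Nat.pow_le_pow_right (by omega) (by omega)
        _ = (2 * (c + 1) * (n + 1)) ^ (3 * lam + 3) := (mul_pow _ _ _).symm
        _ ≤ X ^ (3 * lam + 3) := by
            gcongr
            rw [hX]
            calc 2 * (c + 1) * (n + 1) = 2 * (c + 1) * (n + 1) * 1 * 1 := by ring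
              _ ≤ 2 * (c + 1) * (n + 1) * (w + 1) * (d + 1) := by gcongr <;> omega
    calc 2 * (c * (n + 1) ^ (3 * lam + 3)) * (N + 1) ^ (2 * lam + 1 + lam)
        ≤ X ^ (3 * lam + 3) * (X ^ (3 * lam + 4)) ^ (2 * lam + 1 + lam) := by gcongr
      _ = _ := by rw [← pow_mul, ← pow_add]
  calc _ ≤ X ^ (1 + ((3 * lam + 4) + ((2 * lam + 1) + (3 * lam + 4) * (2 * lam + 1)))) *
        X ^ ((3 * lam + 3) + (3 * lam + 4) * (2 * lam + 1 + lam)) := Nat.mul_le_mul hA1 hB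
    _ = X ^ (15 * lam ^ 2 + 34 * lam + 17) := by rw [← pow_add]; congr 1; ring
    _ ≤ X ^ (17 * (lam + 1) ^ 2) := Nat.pow_le_pow_right hX1 (by nlinarith [Nat.zero_le (lam ^ 2)])

end Pool.Agent.V8H74.SR
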