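import Pool.Agent.V8H74.SR.Search

/-!
# Corners of a cube, ranks, potential
-/

set_option autoImplicit false

namespace Pool.Agent.V8H74.SR

open Module Function

variable {K : Type} [Field K] {c n w d : ℕ}

/-- The places from `a` to `b - 1` of the reading order. -/
def segment (σ : Equiv.Perm (Fin n)) (a b : ℕ) : List (Fin n) := ((word σ).take b).drop a

/-- The product of the matrices of a segment at the point `z`. -/
def segVal (A : Fin n → Fin (d + 1) → Matrix (Fin w) (Fin w) K) (σ : Equiv.Perm (Fin n)) (a b : ℕ)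
    (z : Fin n → K) : Matrix (Fin w) (Fin w) K :=
  val (fun v => atPoint (A v)) (segment σ a b) z

/-- The values of a segment at the points which are `x` on `S ∪ α` and `g` elsewhere, for all `α ⊆ F`. -/
def corner (A : Fin n → Fin (d + 1) → Matrix (Fin w) (Fin w) K) (σ : Equiv.Perm (Fin n)) (a b : ℕ)
    (F : Finset (Fin n)) (x g : Fin n → K) (S : Finset (Fin n)) :
    {α : Finset (Fin n) // α ⊆ F} → Matrix (Fin w) (Fin w) K :=
  fun α => segVal A σ a b (mix (S ∪ α.1) x g)

/-- The rank of the vectors `corner A σ a b F x g S` for `S ∈ 𝒮`. -/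
noncomputable def cornerRank (A : Fin n → Fin (d + 1) → Matrix (Fin w) (Fin w) K) (σ : Equiv.Perm (Fin n))
    (a b : ℕ) (F : Finset (Fin n)) (𝒮 : Finset (Finset (Fin n))) (x g : Fin n → K) : ℕ :=
  finrank K (Submodule.span K ((𝒮 : Set (Finset (Fin n))).image (corner A σ a b F x g)))

/-- The largest such rank for points `x` with coordinates `0, ..., N`. -/
noncomputable def maxRank (N : ℕ) (A : Fin n → Fin (d + 1) → Matrix (Fin w) (Fin w) K)
    (σ : Equiv.Perm (Fin n)) (a b : ℕ) (F : Finset (Fin n)) (𝒮 : Finset (Finset (Fin n))) (g : Fin n → K) : ℕ :=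
  (Finset.univ : Finset (Fin n → Fin (N + 1))).sup fun x =>
    cornerRank A σ a b F 𝒮 (fun v => ((x v : ℕ) : K)) g

theorem segVal_vsep (A : Fin n → Fin (d + 1) → Matrix (Fin w) (Fin w) K) (σ : Equiv.Perm (Fin n)) (a b : ℕ) :
    VSep d (fun z => segVal A σ a b z) :=
  val_vsep _ (fun v p q => atPoint_poly (A v) p q) _
    ((word_nodup σ).sublist ((List.drop_sublist _ _).trans (List.take_sublist _ _)))

theorem VSep.pi {ι X V : Type} [DecidableEq ι] [Fintype X] [AddCommGroup V] [Module K V] {D : ℕ}
    (f : (ι → K) → X → V) (hf : ∀ a, VSep D (fun z => f z a)) : VSep D f := by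
  classical
  intro φ
  have h1 : (fun z => φ (f z)) = fun z => ∑ a, (φ.comp (LinearMap.single K (fun _ : X => V) a)) (f z a) := by
    funext z
    conv_lhs => rw [← Finset.univ_sum_single (f z)]
    rw [map_sum]
    rfl
  rw [h1]
  exact Sep.sum _ _ fun a _ => hf a _

theorem Sep.mix_left {ι : Type} [DecidableEq ι] {D : ℕ} {f : (ι → K) → K} (hf : Sep D f) (U : Finset ι)
    (g : ι → K) : Sep D (fun x => f (SR.mix U x g)) := fun x u => by
  by_cases hu : u ∈ U
  · obtain ⟨p, hp, h⟩ := hf (SR.mix U x g) u
    refine ⟨p, hp, fun t => ?_⟩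
    have h1 : SR.mix U (Function.update x u t) g = Function.update (SR.mix U x g) u t := by
      funext v
      unfold SR.mix
      by_cases hv : v = u
      · subst hv; simp [hu]
      · simp [hv]
    simp only [h1, h]
  · refine ⟨Polynomial.C (f (SR.mix U x g)), by simp, fun t => ?_⟩
    have h1 : SR.mix U (Function.update x u t) g = SR.mix U x g := by
      funext v
      unfold SR.mix
      by_cases hv : v = u
      · subst hv; simp [hu]
      · simp [hv]
    simp only [h1, Polynomial.eval_C]

theorem corner_vsep_base (A : Fin n → Fin (d + 1) → Matrix (Fin w) (Fin w) K) (σ : Equiv.Perm (Fin n)) (a b : ℕ)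
    (F : Finset (Fin n)) (x : Fin n → K) (S : Finset (Fin n)) :
    VSep d (fun g => corner A σ a b F x g S) :=
  VSep.pi _ fun _ φ => (segVal_vsep A σ a b φ).mix _ _

theorem corner_vsep_left (A : Fin n → Fin (d + 1) → Matrix (Fin w) (Fin w) K) (σ : Equiv.Perm (Fin n)) (a b : ℕ)
    (F : Finset (Fin n)) (g : Fin n → K) (S : Finset (Fin n)) :
    VSep d (fun x => corner A σ a b F x g S) :=
  VSep.pi _ fun _ φ => (segVal_vsep A σ a b φ).mix_left _ _

theorem finrank_corner (F : Finset (Fin n)) :
    finrank K ({α : Finset (Fin n) // α ⊆ F} → Matrix (Fin w) (Fin w) K) = 2 ^ F.card * w ^ 2 := by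
  have h1 : Fintype.card {α : Finset (Fin n) // α ⊆ F} = 2 ^ F.card := by
    rw [Fintype.card_subtype, ← Finset.card_powerset]
    congr 1
    ext α
    simp
  rw [Module.finrank_pi_fintype]
  simp only [Module.finrank_matrix, Fintype.card_fin, finrank_self, mul_one, Finset.sum_const, smul_eq_mul,
    Finset.card_univ, h1]
  ring

theorem cornerRank_le (A : Fin n → Fin (d + 1) → Matrix (Fin w) (Fin w) K) (σ : Equiv.Perm (Fin n))
    (a b : ℕ) (F : Finset (Fin n)) (𝒮 : Finset (Finset (Fin n))) (x g : Fin n → K) :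
    cornerRank A σ a b F 𝒮 x g ≤ 2 ^ F.card * w ^ 2 := by
  rw [← finrank_corner (K := K)]
  exact Submodule.finrank_le _

/-- If the cube has more corners than dimensions, corners can be exchanged between `x` and the base point such
that the proper corners span as much as all corners before. -/
theorem swap (A : Fin n → Fin (d + 1) → Matrix (Fin w) (Fin w) K) (σ : Equiv.Perm (Fin n))
    (a b : ℕ) (U F : Finset (Fin n)) (hUF : Disjoint U F) (hlt : 2 ^ F.card * w ^ 2 < 2 ^ U.card)
    (x g : Fin n → K) : ∃ D ⊆ U, cornerRank A σ a b F U.powerset x g ≤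
      cornerRank A σ a b F U.ssubsets (mix D g x) (mix D x g) := by
  classical
  have hnot : ¬ LinearIndependent K (fun S : U.powerset => corner A σ a b F x g S.1) := by
    intro hli
    have h1 := hli.fintype_card_le_finrank
    rw [finrank_corner, Fintype.card_coe, Finset.card_powerset] at h1
    omega
  rw [linearIndependent_iff_notMem_span] at hnot
  push Not at hnot
  obtain ⟨⟨S₀, hS₀⟩, h0⟩ := hnot
  rw [Finset.mem_powerset] at hS₀
  have hcorner : ∀ S' ⊆ U, corner A σ a b F (mix (U \ S₀) g x) (mix (U \ S₀) x g) S' =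
      corner A σ a b F x g (symmDiff S' (U \ S₀)) := by
    intro S' hS'
    funext α
    unfold corner
    congr 1
    funext v
    have hα : v ∈ α.1 → v ∉ U := fun h hU => Finset.disjoint_left.1 hUF hU (α.2 h)
    unfold mix
    by_cases h1 : v ∈ α.1
    · have h2 := hα h1
      simp [h1, h2]
    · by_cases h2 : v ∈ U <;> by_cases h3 : v ∈ S₀ <;> by_cases h4 : v ∈ S' <;>
        simp [Finset.mem_symmDiff, h1, h2, h3, h4]
  refine ⟨U \ S₀, Finset.sdiff_subset, Submodule.finrank_mono ?_⟩
  rw [Submodule.span_le]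
  have hother : ∀ S ⊆ U, S ≠ S₀ → corner A σ a b F x g S ∈ Submodule.span K
      ((U.ssubsets : Set (Finset (Fin n))).image
        (corner A σ a b F (mix (U \ S₀) g x) (mix (U \ S₀) x g))) := by
    intro S hS hne
    refine Submodule.subset_span ⟨symmDiff S (U \ S₀), ?_, ?_⟩
    · rw [Finset.mem_coe, Finset.mem_ssubsets]
      refine (Finset.ssubset_iff_subset_ne).2 ⟨?_, fun h => hne ?_⟩
      · intro v hv
        rw [Finset.mem_symmDiff] at hv
        rcases hv with hv | hv
        · exact hS hv.1
        · exact (Finset.mem_sdiff.1 hv.1).1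
      · have h2 : symmDiff (symmDiff S (U \ S₀)) (U \ S₀) = symmDiff U (U \ S₀) := by rw [h]
        rw [symmDiff_symmDiff_cancel_right] at h2
        rw [h2]
        ext v
        rw [Finset.mem_symmDiff]
        constructor
        · rintro (hv | hv)
          · by_contra h3
            exact hv.2 (Finset.mem_sdiff.2 ⟨hv.1, h3⟩)
          · exact absurd (Finset.mem_sdiff.1 hv.1).1 hv.2
        · intro hv
          exact Or.inl ⟨hS₀ hv, fun h3 => (Finset.mem_sdiff.1 h3).2 hv⟩
    · rw [hcorner, symmDiff_symmDiff_cancel_right]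
      intro v hv
      rw [Finset.mem_symmDiff] at hv
      rcases hv with hv | hv
      · exact hS hv.1
      · exact (Finset.mem_sdiff.1 hv.1).1
  rintro _ ⟨S, hS, rfl⟩
  rw [Finset.mem_coe, Finset.mem_powerset] at hS
  by_cases hne : S = S₀
  · subst hne
    refine Submodule.span_le.2 ?_ h0
    rintro _ ⟨⟨S', hS'⟩, hS'', rfl⟩
    refine hother S' (Finset.mem_powerset.1 hS') fun h => ?_
    subst h
    exact hS''.2 rfl
  · exact hother S hS hne

end Pool.Agent.V8H74.SR
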