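import Mathlib

/-!
# Sums of read-once oblivious programs: segments and modified points
-/

set_option autoImplicit false

namespace Pool.Agent.V8H74.SR

/-- The point `x` on `U` and `g` elsewhere. -/
def mix {ι K : Type} [DecidableEq ι] (U : Finset ι) (x g : ι → K) : ι → K :=
  fun v => if v ∈ U then x v else g v

/-- The product of the matrices `M v (z v)` along the list `l`. -/
def val {ι K : Type} [Semiring K] {w : ℕ} (M : ι → K → Matrix (Fin w) (Fin w) K) (l : List ι) (z : ι → K) :
    Matrix (Fin w) (Fin w) K :=
  (l.map fun v => M v (z v)).prod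

theorem val_append {ι K : Type} [Semiring K] {w : ℕ} (M : ι → K → Matrix (Fin w) (Fin w) K) (l l' : List ι)
    (z : ι → K) : val M (l ++ l') z = val M l z * val M l' z := by
  simp [val]

theorem val_congr {ι K : Type} [Semiring K] {w : ℕ} (M : ι → K → Matrix (Fin w) (Fin w) K) (l : List ι)
    (z z' : ι → K) (h : ∀ v ∈ l, z v = z' v) : val M l z = val M l z' := by
  unfold val
  congr 1
  exact List.map_congr_left fun v hv => by rw [h v hv]

end Pool.Agent.V8H74.SR
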