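import Pool.Agent.V8H74.SR.Defs

/-!
# Separately polynomial functions, semicontinuity of ranks, generic points
-/

set_option autoImplicit false

namespace Pool.Agent.V8H74.SR

open Module Function

variable {ι K : Type} [DecidableEq ι] [Field K]

/-- A function which is a polynomial of degree at most `D` in each coordinate separately. -/
def Sep (D : ℕ) (f : (ι → K) → K) : Prop :=
  ∀ (z : ι → K) (u : ι), ∃ p : Polynomial K, p.natDegree ≤ D ∧ ∀ t, f (update z u t) = p.eval t

theorem Sep.mono {D D' : ℕ} {f : (ι → K) → K} (h : Sep D f) (hD : D ≤ D') : Sep D' f := fun z u => by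
  obtain ⟨p, hp, h⟩ := h z u
  exact ⟨p, hp.trans hD, h⟩

theorem Sep.const (D : ℕ) (a : K) : Sep D (fun _ : ι → K => a) := fun _ _ =>
  ⟨Polynomial.C a, by simp, fun t => by simp⟩

theorem Sep.add {D : ℕ} {f h : (ι → K) → K} (hf : Sep D f) (hh : Sep D h) : Sep D (fun z => f z + h z) :=
  fun z u => by
    obtain ⟨p, hp, h1⟩ := hf z u
    obtain ⟨q, hq, h2⟩ := hh z u
    exact ⟨p + q, (Polynomial.natDegree_add_le _ _).trans (max_le hp hq), fun t => by
      simp only [h1, h2, Polynomial.eval_add]⟩

theorem Sep.mul {D D' : ℕ} {f h : (ι → K) → K} (hf : Sep D f) (hh : Sep D' h) :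
    Sep (D + D') (fun z => f z * h z) := fun z u => by
  obtain ⟨p, hp, h1⟩ := hf z u
  obtain ⟨q, hq, h2⟩ := hh z u
  exact ⟨p * q, Polynomial.natDegree_mul_le.trans (add_le_add hp hq), fun t => by
    simp only [h1, h2, Polynomial.eval_mul]⟩

theorem Sep.const_mul {D : ℕ} {f : (ι → K) → K} (a : K) (hf : Sep D f) : Sep D (fun z => a * f z) := by
  have h := (Sep.const (ι := ι) 0 a).mul hf
  rwa [zero_add] at h

theorem Sep.sum {D : ℕ} {X : Type} (s : Finset X) (f : X → (ι → K) → K) (hf : ∀ x ∈ s, Sep D (f x)) :
    Sep D (fun z => ∑ x ∈ s, f x z) := by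
  classical
  induction s using Finset.induction_on with
  | empty => simpa using Sep.const (ι := ι) (K := K) D 0
  | insert a s ha ih =>
    simp only [Finset.sum_insert ha]
    exact (hf a (Finset.mem_insert_self _ _)).add (ih fun x hx => hf x (Finset.mem_insert_of_mem hx))

theorem Sep.prod {D : ℕ} {X : Type} (s : Finset X) (f : X → (ι → K) → K) (hf : ∀ x ∈ s, Sep D (f x)) :
    Sep (s.card * D) (fun z => ∏ x ∈ s, f x z) := by
  classical
  induction s using Finset.induction_on with
  | empty => simpa using Sep.const (ι := ι) (K := K) 0 1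
  | insert a s ha ih =>
    simp only [Finset.prod_insert ha, Finset.card_insert_of_notMem ha]
    refine ((hf a (Finset.mem_insert_self _ _)).mul
      (ih fun x hx => hf x (Finset.mem_insert_of_mem hx))).mono (le_of_eq (by ring))

theorem Sep.prod' {X : Type} (s : Finset X) (D : X → ℕ) (f : X → (ι → K) → K)
    (hf : ∀ x ∈ s, Sep (D x) (f x)) : Sep (∑ x ∈ s, D x) (fun z => ∏ x ∈ s, f x z) := by
  classical
  induction s using Finset.induction_on with
  | empty => simpa using Sep.const (ι := ι) (K := K) 0 1
  | insert a s ha ih =>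
    simp only [Finset.prod_insert ha, Finset.sum_insert ha]
    exact (hf a (Finset.mem_insert_self _ _)).mul (ih fun x hx => hf x (Finset.mem_insert_of_mem hx))

omit [Field K] in
theorem mix_update_of_mem {U : Finset ι} {u : ι} (hu : u ∈ U) (x z : ι → K) (t : K) :
    mix U x (update z u t) = mix U x z := by
  funext v
  unfold mix
  by_cases hv : v ∈ U
  · simp [hv]
  · have : v ≠ u := fun h => hv (h ▸ hu)
    simp [hv, this]

omit [Field K] in
theorem mix_update_of_notMem {U : Finset ι} {u : ι} (hu : u ∉ U) (x z : ι → K) (t : K) :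
    mix U x (update z u t) = update (mix U x z) u t := by
  funext v
  unfold mix
  by_cases hv : v = u
  · subst hv; simp [hu]
  · simp [hv]

theorem Sep.mix {D : ℕ} {f : (ι → K) → K} (hf : Sep D f) (U : Finset ι) (x : ι → K) :
    Sep D (fun z => f (mix U x z)) := fun z u => by
  by_cases hu : u ∈ U
  · exact ⟨Polynomial.C (f (SR.mix U x z)), by simp, fun t => by
      simp only [mix_update_of_mem hu, Polynomial.eval_C]⟩
  · obtain ⟨p, hp, h⟩ := hf (SR.mix U x z) u
    exact ⟨p, hp, fun t => by simp only [mix_update_of_notMem hu, h]⟩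

theorem Sep.update {D : ℕ} {f : (ι → K) → K} (hf : Sep D f) (u : ι) (s : K) :
    Sep D (fun z => f (update z u s)) := fun z v => by
  by_cases hv : v = u
  · subst hv
    exact ⟨Polynomial.C (f (Function.update z v s)), by simp, fun t => by simp⟩
  · obtain ⟨p, hp, h⟩ := hf (Function.update z u s) v
    exact ⟨p, hp, fun t => by simp only [update_comm hv, h]⟩

/-- A vector-valued function which is a polynomial of degree at most `D` in each coordinate. -/
def VSep {V : Type} [AddCommGroup V] [Module K V] (D : ℕ) (f : (ι → K) → V) : Prop :=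
  ∀ φ : V →ₗ[K] K, Sep D (fun z => φ (f z))

variable {V : Type} [AddCommGroup V] [Module K V] [FiniteDimensional K V]

/-- Semicontinuity of the rank of a family of vectors. -/
theorem semicont {X : Type} {D : ℕ} (f : X → (ι → K) → V) (hf : ∀ x, VSep D (f x)) (g₀ : ι → K) :
    ∃ Δ : (ι → K) → K, Sep (finrank K V * D) Δ ∧ Δ g₀ ≠ 0 ∧ ∀ g, Δ g ≠ 0 →
      finrank K (Submodule.span K (Set.range fun x => f x g₀)) ≤
        finrank K (Submodule.span K (Set.range fun x => f x g)) := by
  classical
  obtain ⟨b, hb, hspan, hli⟩ := exists_linearIndependent K (Set.range fun x => f x g₀)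
  have : Finite b := hli.finite
  have : Fintype b := Fintype.ofFinite b
  have hx : ∀ a : b, ∃ x, f x g₀ = a.1 := fun a => hb a.2
  choose xx hxx using hx
  have hinj : LinearMap.ker (Finsupp.linearCombination K (Subtype.val : b → V)) = ⊥ :=
    LinearMap.ker_eq_bot.2 hli
  obtain ⟨L, hL⟩ := LinearMap.exists_leftInverse_of_injective _ hinj
  have hφ : ∀ a a' : b, L (a' : V) a = if a' = a then 1 else 0 := by
    intro a a'
    have h1 : (Finsupp.linearCombination K (Subtype.val : b → V)) (Finsupp.single a' 1) = (a' : V) := by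
      simp
    have h2 := congrArg (fun F => F (Finsupp.single a' (1 : K)) a) hL
    simp only [LinearMap.comp_apply, h1, LinearMap.id_apply] at h2
    rw [h2, Finsupp.single_apply]
  let A : (ι → K) → Matrix b b K := fun g => Matrix.of fun a a' => L (f (xx a') g) a
  have hcard : Fintype.card b ≤ finrank K V := hli.fintype_card_le_finrank
  refine ⟨fun g => (A g).det, ?_, ?_, ?_⟩
  · simp only [Matrix.det_apply]
    refine Sep.sum _ _ fun σ _ => ?_
    have h1 : Sep (finrank K V * D) (fun g : ι → K => ∏ a, A g (σ a) a) := by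
      refine (Sep.prod (D := D) Finset.univ (fun a g => A g (σ a) a) fun a _ => ?_).mono ?_
      · exact hf (xx a) ((Finsupp.lapply (σ a)).comp L)
      · exact Nat.mul_le_mul_right _ (by rw [Finset.card_univ]; exact hcard)
    have h2 := h1.const_mul ((Equiv.Perm.sign σ : ℤ) : K)
    have h3 : (fun g : ι → K => Equiv.Perm.sign σ • ∏ a, A g (σ a) a) =
        fun g => ((Equiv.Perm.sign σ : ℤ) : K) * ∏ a, A g (σ a) a := by
      funext g
      rw [Units.smul_def, zsmul_eq_mul]
    exact h3 ▸ h2
  · have : A g₀ = 1 := by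
      ext a a'
      simp only [A, Matrix.of_apply, hxx, hφ, Matrix.one_apply]
      by_cases h : a' = a
      · simp [h]
      · simp [h, Ne.symm h]
    simp [this]
  · intro g hg
    have hli' : LinearIndependent K (fun a : b => f (xx a) g) := by
      rw [Fintype.linearIndependent_iff]
      intro c hc
      have h1 : (A g).mulVec c = 0 := by
        ext a
        have h2 := congrArg (fun v => L v a) hc
        simp only [map_sum, map_smul, map_zero, Finsupp.coe_finsetSum, Finset.sum_apply, Finsupp.coe_smul,
          Pi.smul_apply, smul_eq_mul, Finsupp.coe_zero, Pi.zero_apply] at h2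
        simp only [Matrix.mulVec, dotProduct, A, Matrix.of_apply, Pi.zero_apply]
        rw [← h2]
        exact Finset.sum_congr rfl fun a' _ => mul_comm _ _
      intro a
      have h3 := Matrix.eq_zero_of_mulVec_eq_zero hg h1
      exact congrFun h3 a
    have h1 : finrank K (Submodule.span K (Set.range fun x => f x g₀)) = Fintype.card b := by
      rw [← hspan]
      exact (finrank_span_set_eq_card hli).trans (Set.toFinset_card b)
    have h2 := finrank_span_eq_card hli'
    rw [h1, ← h2]
    exact Submodule.finrank_mono (Submodule.span_mono (by rintro _ ⟨a, rfl⟩; exact ⟨xx a, rfl⟩))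

omit [FiniteDimensional K V] in
/-- A polynomial curve which is in a subspace for almost all parameters is in it. -/
theorem poly_mem [Infinite K] (f : K → V) (hf : ∀ φ : V →ₗ[K] K, ∃ p : Polynomial K, ∀ t, φ (f t) = p.eval t)
    (W : Submodule K V) (q : Polynomial K) (hq : q ≠ 0) (h : ∀ t, q.eval t ≠ 0 → f t ∈ W) (t : K) : f t ∈ W := by
  by_contra hn
  obtain ⟨φ, hφ, hφW⟩ := Submodule.exists_le_ker_of_notMem hn
  obtain ⟨p, hp⟩ := hf φ
  have hp0 : p ≠ 0 := by
    rintro rfl
    exact hφ (by rw [hp, Polynomial.eval_zero])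
  refine mul_ne_zero hp0 hq (Polynomial.funext fun s => ?_)
  rw [Polynomial.eval_mul, Polynomial.eval_zero]
  by_cases hs : q.eval s = 0
  · rw [hs, mul_zero]
  · rw [← hp, LinearMap.mem_ker.1 (hφW (h s hs)), zero_mul]

end Pool.Agent.V8H74.SR
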