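import Pool.Agent.V8H74.SR.Gen

/-!
# A generic base point spans
-/

set_option autoImplicit false

namespace Pool.Agent.V8H74.SR

open Module Function

variable {ι K : Type} [DecidableEq ι] [Field K]

/-- a nonzero univariate polynomial over a field of characteristic 0 does not vanish at some small natural number -/
theorem exists_nat [CharZero K] (q : Polynomial K) (hq : q ≠ 0) (B : ℕ) (hB : q.natDegree ≤ B) :
    ∃ y : ℕ, y ≤ B ∧ q.eval (y : K) ≠ 0 := by
  by_contra hcon
  push Not at hcon
  apply hq
  refine Polynomial.eq_zero_of_natDegree_lt_card_of_eval_eq_zero q (ι := Fin (B + 1)) (f := fun i => ((i : ℕ) : K))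
    (fun i j hij => Fin.ext (Nat.cast_injective (R := K) hij)) (fun i => hcon i (by omega)) ?_
  rw [Fintype.card_fin]
  omega

/-- Two functions which do not vanish at two points which differ only on `U` do not vanish together at a point
with small natural coordinates on `U`. -/
theorem grid_two [CharZero K] {f h : (ι → K) → K} {Df Dh : ℕ} (hf : Sep Df f) (hh : Sep Dh h) (U : Finset ι) :
    ∀ z₀ z₁ : ι → K, (∀ v ∉ U, z₀ v = z₁ v) → f z₀ ≠ 0 → h z₁ ≠ 0 →
      ∃ y : ι → ℕ, (∀ v, y v ≤ Df + Dh) ∧ f (mix U (fun v => (y v : K)) z₀) ≠ 0 ∧
        h (mix U (fun v => (y v : K)) z₀) ≠ 0 := by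
  induction U using Finset.induction_on with
  | empty =>
    intro z₀ z₁ h01 h0 h1
    have : z₀ = z₁ := funext fun v => h01 v (Finset.notMem_empty v)
    subst this
    have hmix : ∀ x : ι → K, mix ∅ x z₀ = z₀ := fun x => by
      funext v
      simp [mix]
    exact ⟨fun _ => 0, fun _ => Nat.zero_le _, by rw [hmix]; exact h0, by rw [hmix]; exact h1⟩
  | insert u U hu ih =>
    intro z₀ z₁ h01 h0 h1
    obtain ⟨p, hp, hp'⟩ := hf z₀ u
    obtain ⟨q, hq, hq'⟩ := hh z₁ u
    have hp0 : p ≠ 0 := by
      rintro rfl
      exact h0 (by rw [← update_eq_self u z₀, hp', Polynomial.eval_zero])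
    have hq0 : q ≠ 0 := by
      rintro rfl
      exact h1 (by rw [← update_eq_self u z₁, hq', Polynomial.eval_zero])
    obtain ⟨t, ht, ht'⟩ := exists_nat (p * q) (mul_ne_zero hp0 hq0) (Df + Dh)
      (Polynomial.natDegree_mul_le.trans (add_le_add hp hq))
    rw [Polynomial.eval_mul] at ht'
    obtain ⟨y, hy, hy1, hy2⟩ := ih (update z₀ u (t : K)) (update z₁ u (t : K)) (fun v hv => by
        by_cases hvu : v = u
        · subst hvu; simp
        · simp only [update_of_ne hvu]
          exact h01 v (by simp [hvu, hv]))
      (by rw [hp']; exact left_ne_zero_of_mul ht') (by rw [hq']; exact right_ne_zero_of_mul ht')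
    have key : mix (insert u U) (fun v => ((update y u t v : ℕ) : K)) z₀ =
        mix U (fun v => (y v : K)) (update z₀ u (t : K)) := by
      funext v
      unfold mix
      by_cases hvu : v = u
      · subst hvu; simp [hu]
      · simp [hvu]
    refine ⟨update y u t, fun v => ?_, ?_, ?_⟩
    · by_cases hvu : v = u
      · subst hvu; simpa using ht
      · simpa [hvu] using hy v
    · rw [key]; exact hy1
    · rw [key]; exact hy2

variable {V : Type} [AddCommGroup V] [Module K V] [FiniteDimensional K V]

omit [FiniteDimensional K V] in
theorem VSep.mix {D : ℕ} {f : (ι → K) → V} (hf : VSep D f) (U : Finset ι) (x : ι → K) :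
    VSep D (fun z => f (mix U x z)) := fun φ => (hf φ).mix U x

omit [FiniteDimensional K V] in
theorem VSep.update {D : ℕ} {f : (ι → K) → V} (hf : VSep D f) (u : ι) (s : K) :
    VSep D (fun z => f (update z u s)) := fun φ => (hf φ).update u s

omit [FiniteDimensional K V] in
theorem VSep.const (D : ℕ) (v : V) : VSep D (fun _ : ι → K => v) := fun φ => Sep.const D (φ v)

/-- If the values of polynomial maps in the coordinates `U` span less than `2 ^ |U|` dimensions modulo `V₀`,
there is a point `y` such that all values are spanned by the values at points which share a coordinate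
with `y`. -/
theorem generic [CharZero K] (D : ℕ) (U : Finset ι) : ∀ {J : Type} (P : J → (ι → K) → V),
    (∀ j, VSep D (P j)) → ∀ (V₀ : Submodule K V) (z : ι → K),
    finrank K (V₀ ⊔ Submodule.span K {m | ∃ j x, m = P j (mix U x z)} : Submodule K V) <
      finrank K V₀ + 2 ^ U.card →
    ∃ y : ι → K, ∀ j x, P j (mix U x z) ∈
      V₀ ⊔ Submodule.span K {m | ∃ j' x', ∃ u ∈ U, m = P j' (mix (U.erase u) x' (mix U y z))} := by
  classical
  induction U using Finset.induction_on with
  | empty =>
    intro J P hP V₀ z h
    refine ⟨z, fun j x => ?_⟩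
    have h1 : V₀ = V₀ ⊔ Submodule.span K {m | ∃ j x, m = P j (mix ∅ x z)} :=
      Submodule.eq_of_le_of_finrank_le le_sup_left (by
        rw [Finset.card_empty, pow_zero] at h
        exact Nat.lt_succ_iff.1 h)
    refine Submodule.mem_sup_left ?_
    rw [h1]
    exact Submodule.mem_sup_right (Submodule.subset_span ⟨j, x, rfl⟩)
  | insert u U hu ih =>
    intro J P hP V₀ z h
    rw [Finset.card_insert_of_notMem hu, pow_succ] at h
    -- the slices
    let S : K → Submodule K V := fun t =>
      V₀ ⊔ Submodule.span K {m | ∃ j x, m = P j (mix U x (update z u t))}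
    have hmixu : ∀ (x : ι → K) (t : K), mix U x (update z u t) = mix (insert u U) (update x u t) z := by
      intro x t
      funext v
      unfold mix
      by_cases hvu : v = u
      · subst hvu; simp [hu]
      · simp [hvu]
    have hmixu' : ∀ (x : ι → K) (s : K), update (mix U x z) u s = mix (insert u U) (update x u s) z := by
      intro x t
      funext v
      unfold mix
      by_cases hvu : v = u
      · subst hvu; simp
      · simp [hvu]
    have hSle : ∀ t, S t ≤ V₀ ⊔ Submodule.span K {m | ∃ j x, m = P j (mix (insert u U) x z)} := by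
      intro t
      refine sup_le_sup le_rfl (Submodule.span_mono ?_)
      rintro _ ⟨j, x, rfl⟩
      exact ⟨j, update x u t, by rw [hmixu]⟩
    by_cases hA : ∃ t, finrank K V₀ + 2 ^ U.card ≤ finrank K (S t)
    · obtain ⟨t, ht⟩ := hA
      obtain ⟨y, hy⟩ := ih (J := J × K) (fun js x => P js.1 (update x u js.2))
        (fun js => (hP js.1).update u js.2) (S t) z (by
          refine lt_of_le_of_lt (Submodule.finrank_mono (sup_le (hSle t) ?_)) (lt_of_lt_of_le h ?_)
          · rw [Submodule.span_le]
            rintro _ ⟨⟨j, s⟩, x, rfl⟩
            exact Submodule.mem_sup_right (Submodule.subset_span ⟨j, update x u s, by rw [← hmixu']⟩)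
          · omega)
      refine ⟨update y u t, fun j x => ?_⟩
      have h1 := hy (j, x u) x
      simp only at h1
      rw [hmixu', update_eq_self] at h1
      have hle : S t ⊔ Submodule.span K {m | ∃ (js : J × K) (x' : ι → K), ∃ v ∈ U,
          m = P js.1 (update (mix (U.erase v) x' (mix U y z)) u js.2)} ≤
          V₀ ⊔ Submodule.span K {m | ∃ j' x', ∃ v ∈ insert u U,
            m = P j' (mix ((insert u U).erase v) x' (mix (insert u U) (update y u t) z))} := by
        refine sup_le (sup_le le_sup_left ?_) ?_
        · rw [Submodule.span_le]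
          rintro _ ⟨j', x', rfl⟩
          refine Submodule.mem_sup_right (Submodule.subset_span ⟨j', x', u, Finset.mem_insert_self _ _, ?_⟩)
          congr 1
          rw [Finset.erase_insert hu]
          funext v
          unfold mix
          by_cases hvu : v = u
          · subst hvu; simp [hu]
          · by_cases hvU : v ∈ U
            · simp [hvU]
            · simp [hvu, hvU]
        · rw [Submodule.span_le]
          rintro _ ⟨⟨j', s⟩, x', v, hv, rfl⟩
          refine Submodule.mem_sup_right (Submodule.subset_span
            ⟨j', update x' u s, v, Finset.mem_insert_of_mem hv, ?_⟩)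
          have hvu : v ≠ u := fun h => hu (h ▸ hv)
          simp only
          congr 1
          funext a
          unfold mix
          by_cases hau : a = u
          · subst hau; simp [hvu.symm]
          · simp [hau]
      exact hle h1
    · push Not at hA
      -- the parameter of the largest slice
      obtain ⟨t₀, ht₀⟩ : ∃ t₀, ∀ t, finrank K (S t) ≤ finrank K (S t₀) := by
        let g : K → ℕ := fun t => finrank K V - finrank K (S t)
        refine ⟨argmin g, fun t => ?_⟩
        have h1 : g (argmin g) ≤ g t := argmin_le g t
        have h2 : finrank K (S t) ≤ finrank K V := Submodule.finrank_le _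
        have h3 : finrank K (S (argmin g)) ≤ finrank K V := Submodule.finrank_le _
        change finrank K V - finrank K (S (argmin g)) ≤ finrank K V - finrank K (S t) at h1
        omega
      obtain ⟨y, hy⟩ := ih P hP V₀ (update z u t₀) (hA t₀)
      let low : K → Submodule K V := fun t =>
        Submodule.span K {m | ∃ j' x', ∃ v ∈ U, m = P j' (mix (U.erase v) x' (mix U y (update z u t)))}
      have hlowS : ∀ t, V₀ ⊔ low t ≤ S t := by
        intro t
        refine sup_le_sup le_rfl (Submodule.span_mono ?_)
        rintro _ ⟨j, x', v, hv, rfl⟩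
        refine ⟨j, mix (U.erase v) x' y, ?_⟩
        congr 1
        funext a
        unfold mix
        by_cases haU : a ∈ U
        · by_cases hav : a = v
          · simp [hav, hv]
          · simp [haU, hav]
        · simp [haU]
      have hSlow : S t₀ ≤ V₀ ⊔ low t₀ := by
        refine sup_le le_sup_left ?_
        rw [Submodule.span_le]
        rintro _ ⟨j, x, rfl⟩
        exact hy j x
      -- semicontinuity
      let f : (V₀ ⊕ (J × (ι → K) × U)) → (ι → K) → V := fun a g => match a with
        | Sum.inl v => v.1
        | Sum.inr b => P b.1 (mix (U.erase b.2.2.1) b.2.1 (mix U y g))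
      have hf : ∀ a, VSep D (f a) := by
        rintro (v | b)
        · exact VSep.const D v.1
        · exact ((hP b.1).mix (U.erase b.2.2.1) b.2.1).mix U y
      have hfspan : ∀ t, Submodule.span K (Set.range fun a => f a (update z u t)) = V₀ ⊔ low t := by
        intro t
        apply le_antisymm
        · rw [Submodule.span_le]
          rintro _ ⟨v | b, rfl⟩
          · exact Submodule.mem_sup_left v.2
          · exact Submodule.mem_sup_right (Submodule.subset_span ⟨b.1, b.2.1, b.2.2.1, b.2.2.2, rfl⟩)
        · refine sup_le (fun v hv => Submodule.subset_span ⟨Sum.inl ⟨v, hv⟩, rfl⟩) ?_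
          rw [Submodule.span_le]
          rintro _ ⟨j, x', v, hv, rfl⟩
          exact Submodule.subset_span ⟨Sum.inr (j, x', ⟨v, hv⟩), rfl⟩
      obtain ⟨Δ, hΔ, hΔ0, hΔ1⟩ := semicont f hf (update z u t₀)
      obtain ⟨p, -, hp⟩ := hΔ z u
      have hp0 : p ≠ 0 := by
        rintro rfl
        exact hΔ0 (by rw [hp, Polynomial.eval_zero])
      have hgood : ∀ t, p.eval t ≠ 0 → S t ≤ V₀ ⊔ low t := by
        intro t ht
        have h1 := hΔ1 (update z u t) (by rw [hp]; exact ht)
        rw [hfspan, hfspan] at h1
        have h2 : finrank K (S t) ≤ finrank K (V₀ ⊔ low t : Submodule K V) :=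
          (ht₀ t).trans ((Submodule.finrank_mono hSlow).trans h1)
        exact (Submodule.eq_of_le_of_finrank_le (hlowS t) h2).ge
      refine ⟨y, fun j x => ?_⟩
      have h1 := poly_mem (fun s => P j (update (mix U x z) u s)) (fun φ => by
          obtain ⟨p', -, hp'⟩ := hP j φ (mix U x z) u
          exact ⟨p', hp'⟩)
        (V₀ ⊔ Submodule.span K {m | ∃ j' x', ∃ v ∈ insert u U,
          m = P j' (mix ((insert u U).erase v) x' (mix (insert u U) y z))}) p hp0 (fun s hs => by
            have h2 : P j (update (mix U x z) u s) ∈ S s :=
              Submodule.mem_sup_right (Submodule.subset_span ⟨j, x, by rw [mix_update_of_notMem hu]⟩)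
            have hle : V₀ ⊔ low s ≤ V₀ ⊔ Submodule.span K {m | ∃ j' x', ∃ v ∈ insert u U,
                m = P j' (mix ((insert u U).erase v) x' (mix (insert u U) y z))} := by
              refine sup_le le_sup_left ?_
              rw [Submodule.span_le]
              rintro _ ⟨j', x', v, hv, rfl⟩
              refine Submodule.mem_sup_right (Submodule.subset_span
                ⟨j', update x' u s, v, Finset.mem_insert_of_mem hv, ?_⟩)
              have hvu : v ≠ u := fun h => hu (h ▸ hv)
              congr 1
              funext a
              unfold mix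
              by_cases hau : a = u
              · subst hau; simp [hvu.symm, hu]
              · simp [hau]
            exact hle (hgood s hs h2)) (x u)
      rwa [hmixu', update_eq_self] at h1

end Pool.Agent.V8H74.SR
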