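import Pool.Agent.V8H74.SR.Cube

/-!
# Local maxima of the potential are good base points
-/

set_option autoImplicit false

namespace Pool.Agent.V8H74.SR

open Module Function

variable {K : Type} [Field K] {c n w d : ℕ}

/-- A program, the ends of a segment, a set `U` of `ℓ` variables and a disjoint set `F` of at most `q`
variables. -/
def conds (c n ℓ q : ℕ) : Finset (Fin c × Fin (n + 1) × Fin (n + 1) × Finset (Fin n) × Finset (Fin n)) :=
  Finset.univ.filter fun κ => κ.2.2.2.1.card = ℓ ∧ κ.2.2.2.2.card ≤ q ∧ Disjoint κ.2.2.2.1 κ.2.2.2.2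

/-- The sum over all conditions of the largest ranks of all corners and of the proper corners. -/
noncomputable def potential (N : ℕ) (A : Fin c → Fin n → Fin (d + 1) → Matrix (Fin w) (Fin w) K)
    (σ : Fin c → Equiv.Perm (Fin n)) (ℓ q : ℕ) (g : Fin n → K) : ℕ :=
  ∑ κ ∈ conds c n ℓ q,
    (maxRank N (A κ.1) (σ κ.1) κ.2.1 κ.2.2.1 κ.2.2.2.2 κ.2.2.2.1.powerset g +
      maxRank N (A κ.1) (σ κ.1) κ.2.1 κ.2.2.1 κ.2.2.2.2 κ.2.2.2.1.ssubsets g)

/-- A bound of the potential. -/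
def maxPotential (c n w ℓ q : ℕ) : ℕ := 2 * (2 ^ q * w ^ 2) * (c * (n + 1) ^ (2 + ℓ + q))

/-- The largest coordinate. -/
def gridSize (c n w d ℓ q : ℕ) : ℕ := (maxPotential c n w ℓ q + 2 ^ q * w ^ 2) * d

theorem card_small (n q : ℕ) :
    ((Finset.univ : Finset (Finset (Fin n))).filter fun F => F.card ≤ q).card ≤ (n + 1) ^ q := by
  classical
  have h1 : ((Finset.univ : Finset (Finset (Fin n))).filter fun F => F.card ≤ q) ⊆
      (Finset.univ : Finset (Fin q → Option (Fin n))).image fun f =>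
        (Finset.univ.image f).eraseNone := by
    intro F hF
    rw [Finset.mem_filter] at hF
    have hF2 := hF.2
    rw [Finset.mem_image]
    refine ⟨fun i => if h : (i : ℕ) < F.card then some (F.equivFin.symm ⟨i, h⟩ : Fin n) else none,
      Finset.mem_univ _, ?_⟩
    ext v
    simp only [Finset.mem_eraseNone, Finset.mem_image, Finset.mem_univ, true_and]
    constructor
    · rintro ⟨i, hi⟩
      split_ifs at hi with h
      rw [Option.some.injEq] at hi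
      rw [← hi]
      exact (F.equivFin.symm ⟨i, h⟩).2
    · intro hv
      refine ⟨⟨F.equivFin ⟨v, hv⟩, lt_of_lt_of_le (F.equivFin ⟨v, hv⟩).2 hF2⟩, ?_⟩
      rw [dif_pos (F.equivFin ⟨v, hv⟩).2]
      simp
  refine (Finset.card_le_card h1).trans (Finset.card_image_le.trans ?_)
  rw [Finset.card_univ, Fintype.card_fun, Fintype.card_option, Fintype.card_fin, Fintype.card_fin]

theorem card_conds (c n ℓ q : ℕ) : (conds c n ℓ q).card ≤ c * (n + 1) ^ (2 + ℓ + q) := by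
  classical
  have h1 : conds c n ℓ q ⊆ Finset.univ ×ˢ Finset.univ ×ˢ Finset.univ ×ˢ
      (((Finset.univ : Finset (Finset (Fin n))).filter fun F => F.card ≤ ℓ) ×ˢ
      ((Finset.univ : Finset (Finset (Fin n))).filter fun F => F.card ≤ q)) := by
    intro κ hκ
    simp only [conds, Finset.mem_filter, Finset.mem_univ, true_and] at hκ
    simp only [Finset.mem_product, Finset.mem_univ, Finset.mem_filter, true_and]
    exact ⟨hκ.1.le, hκ.2.1⟩
  refine (Finset.card_le_card h1).trans ?_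
  rw [Finset.card_product, Finset.card_product, Finset.card_product, Finset.card_product, Finset.card_univ,
    Finset.card_univ, Fintype.card_fin, Fintype.card_fin]
  calc c * ((n + 1) * ((n + 1) * (((Finset.univ : Finset (Finset (Fin n))).filter fun F => F.card ≤ ℓ).card *
        ((Finset.univ : Finset (Finset (Fin n))).filter fun F => F.card ≤ q).card)))
      ≤ c * ((n + 1) * ((n + 1) * ((n + 1) ^ ℓ * (n + 1) ^ q))) := by
        gcongr
        · exact card_small n ℓ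
        · exact card_small n q
    _ = c * (n + 1) ^ (2 + ℓ + q) := by ring

theorem two_pow_le {F : Finset (Fin n)} {q : ℕ} (h : F.card ≤ q) : 2 ^ F.card * w ^ 2 ≤ 2 ^ q * w ^ 2 :=
  Nat.mul_le_mul_right _ (Nat.pow_le_pow_right (by norm_num) h)

theorem potential_le (N : ℕ) (A : Fin c → Fin n → Fin (d + 1) → Matrix (Fin w) (Fin w) K)
    (σ : Fin c → Equiv.Perm (Fin n)) (ℓ q : ℕ) (g : Fin n → K) :
    potential N A σ ℓ q g ≤ maxPotential c n w ℓ q := by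
  unfold potential maxPotential
  refine (Finset.sum_le_card_nsmul _ _ (2 * (2 ^ q * w ^ 2)) fun κ hκ => ?_).trans ?_
  · simp only [conds, Finset.mem_filter, Finset.mem_univ, true_and] at hκ
    have h1 : ∀ 𝒮, maxRank N (A κ.1) (σ κ.1) κ.2.1 κ.2.2.1 κ.2.2.2.2 𝒮 g ≤ 2 ^ q * w ^ 2 := fun 𝒮 =>
      Finset.sup_le fun x _ => (cornerRank_le _ _ _ _ _ _ _ _).trans (two_pow_le hκ.2.1)
    have h2 := h1 κ.2.2.2.1.powerset
    have h3 := h1 κ.2.2.2.1.ssubsets
    omega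
  · rw [smul_eq_mul, mul_comm]
    exact Nat.mul_le_mul_left _ (card_conds c n ℓ q)

/-- semicontinuity of `cornerRank` in the base point -/
theorem semi_base (A : Fin n → Fin (d + 1) → Matrix (Fin w) (Fin w) K) (σ : Equiv.Perm (Fin n))
    (a b q : ℕ) (F : Finset (Fin n)) (hF : F.card ≤ q) (𝒮 : Finset (Finset (Fin n))) (x g₀ : Fin n → K) :
    ∃ Δ : (Fin n → K) → K, Sep (2 ^ q * w ^ 2 * d) Δ ∧ Δ g₀ ≠ 0 ∧ ∀ g, Δ g ≠ 0 →
      cornerRank A σ a b F 𝒮 x g₀ ≤ cornerRank A σ a b F 𝒮 x g := by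
  obtain ⟨Δ, h1, h2, h3⟩ := semicont (fun (S : 𝒮) g => corner A σ a b F x g S.1)
    (fun S => corner_vsep_base A σ a b F x S.1) g₀
  rw [finrank_corner] at h1
  have hr : ∀ g, (𝒮 : Set (Finset (Fin n))).image (corner A σ a b F x g) =
      Set.range fun S : 𝒮 => corner A σ a b F x g S.1 := by
    intro g
    ext m
    constructor
    · rintro ⟨S, hS, rfl⟩
      exact ⟨⟨S, hS⟩, rfl⟩
    · rintro ⟨S, rfl⟩
      exact ⟨S.1, S.2, rfl⟩
  refine ⟨Δ, h1.mono (Nat.mul_le_mul_right _ (two_pow_le hF)), h2, fun g hg => ?_⟩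
  unfold cornerRank
  rw [hr, hr]
  exact h3 g hg

/-- semicontinuity of `cornerRank` in the other point -/
theorem semi_left (A : Fin n → Fin (d + 1) → Matrix (Fin w) (Fin w) K) (σ : Equiv.Perm (Fin n))
    (a b q : ℕ) (F : Finset (Fin n)) (hF : F.card ≤ q) (𝒮 : Finset (Finset (Fin n))) (x₀ g : Fin n → K) :
    ∃ Δ : (Fin n → K) → K, Sep (2 ^ q * w ^ 2 * d) Δ ∧ Δ x₀ ≠ 0 ∧ ∀ x, Δ x ≠ 0 →
      cornerRank A σ a b F 𝒮 x₀ g ≤ cornerRank A σ a b F 𝒮 x g := by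
  obtain ⟨Δ, h1, h2, h3⟩ := semicont (fun (S : 𝒮) x => corner A σ a b F x g S.1)
    (fun S => corner_vsep_left A σ a b F g S.1) x₀
  rw [finrank_corner] at h1
  have hr : ∀ x, (𝒮 : Set (Finset (Fin n))).image (corner A σ a b F x g) =
      Set.range fun S : 𝒮 => corner A σ a b F x g S.1 := by
    intro x
    ext m
    constructor
    · rintro ⟨S, hS, rfl⟩
      exact ⟨⟨S, hS⟩, rfl⟩
    · rintro ⟨S, rfl⟩
      exact ⟨S.1, S.2, rfl⟩
  refine ⟨Δ, h1.mono (Nat.mul_le_mul_right _ (two_pow_le hF)), h2, fun x hx => ?_⟩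
  unfold cornerRank
  rw [hr, hr]
  exact h3 x hx

theorem le_maxRank (N : ℕ) (A : Fin n → Fin (d + 1) → Matrix (Fin w) (Fin w) K) (σ : Equiv.Perm (Fin n))
    (a b : ℕ) (F : Finset (Fin n)) (𝒮 : Finset (Finset (Fin n))) (x : Fin n → ℕ) (hx : ∀ v, x v ≤ N)
    (g : Fin n → K) : cornerRank A σ a b F 𝒮 (fun v => (x v : K)) g ≤ maxRank N A σ a b F 𝒮 g := by
  obtain ⟨x', hx'⟩ : ∃ x' : Fin n → Fin (N + 1), ∀ v, ((x' v : ℕ)) = x v :=
    ⟨fun v => ⟨x v, Nat.lt_succ_of_le (hx v)⟩, fun v => rfl⟩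
  have h1 : (fun v => (x v : K)) = fun v => ((x' v : ℕ) : K) := by
    funext v
    rw [hx']
  rw [h1]
  exact Finset.le_sup (f := fun x : Fin n → Fin (N + 1) =>
    cornerRank A σ a b F 𝒮 (fun v => ((x v : ℕ) : K)) g) (Finset.mem_univ x')

theorem exists_maxRank (N : ℕ) (A : Fin n → Fin (d + 1) → Matrix (Fin w) (Fin w) K) (σ : Equiv.Perm (Fin n))
    (a b : ℕ) (F : Finset (Fin n)) (𝒮 : Finset (Finset (Fin n))) (g : Fin n → K) :
    ∃ x : Fin n → ℕ, (∀ v, x v ≤ N) ∧ maxRank N A σ a b F 𝒮 g = cornerRank A σ a b F 𝒮 (fun v => (x v : K)) g := by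
  obtain ⟨x, -, hx⟩ := Finset.exists_mem_eq_sup (Finset.univ : Finset (Fin n → Fin (N + 1)))
    Finset.univ_nonempty fun x => cornerRank A σ a b F 𝒮 (fun v => ((x v : ℕ) : K)) g
  exact ⟨fun v => x v, fun v => Nat.lt_succ_iff.1 (x v).2, hx⟩

theorem maxRank_semi (N : ℕ) (A : Fin n → Fin (d + 1) → Matrix (Fin w) (Fin w) K) (σ : Equiv.Perm (Fin n))
    (a b q : ℕ) (F : Finset (Fin n)) (hF : F.card ≤ q) (𝒮 : Finset (Finset (Fin n))) (g₀ : Fin n → K) :
    ∃ Δ : (Fin n → K) → K, Sep (2 ^ q * w ^ 2 * d) Δ ∧ Δ g₀ ≠ 0 ∧ ∀ g, Δ g ≠ 0 →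
      maxRank N A σ a b F 𝒮 g₀ ≤ maxRank N A σ a b F 𝒮 g := by
  obtain ⟨x, hx, hx'⟩ := exists_maxRank N A σ a b F 𝒮 g₀
  obtain ⟨Δ, h1, h2, h3⟩ := semi_base A σ a b q F hF 𝒮 (fun v => (x v : K)) g₀
  exact ⟨Δ, h1, h2, fun g hg => by
    rw [hx']
    exact (h3 g hg).trans (le_maxRank N A σ a b F 𝒮 x hx g)⟩

/-- If `g` is a local maximum of the potential, the proper corners have the largest rank for all conditions. -/
theorem local_max_good [CharZero K] (N : ℕ) (A : Fin c → Fin n → Fin (d + 1) → Matrix (Fin w) (Fin w) K)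
    (σ : Fin c → Equiv.Perm (Fin n)) (ℓ q : ℕ) (hℓ : 2 ^ q * w ^ 2 < 2 ^ ℓ)
    (hN : gridSize c n w d ℓ q ≤ N) (g : Fin n → ℕ) (hg : ∀ v, g v ≤ N)
    (hmax : ∀ U : Finset (Fin n), U.card = ℓ → ∀ y : Fin n → ℕ, (∀ v, y v ≤ N) →
      potential N A σ ℓ q (mix U (fun v => (y v : K)) fun v => (g v : K)) ≤
        potential N A σ ℓ q fun v => (g v : K)) :
    ∀ κ ∈ conds c n ℓ q,
      maxRank N (A κ.1) (σ κ.1) κ.2.1 κ.2.2.1 κ.2.2.2.2 κ.2.2.2.1.powerset (fun v => (g v : K)) ≤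
      maxRank N (A κ.1) (σ κ.1) κ.2.1 κ.2.2.1 κ.2.2.2.2 κ.2.2.2.1.ssubsets (fun v => (g v : K)) := by
  classical
  rintro ⟨i, a, b, U, F⟩ hκ
  have hκ' := hκ
  simp only [conds, Finset.mem_filter, Finset.mem_univ, true_and] at hκ
  obtain ⟨hU, hF, hUF⟩ := hκ
  simp only
  by_contra hlt
  push Not at hlt
  -- exchange corners
  obtain ⟨x, hx, hx'⟩ := exists_maxRank N (A i) (σ i) a b F U.powerset (fun v => (g v : K))
  obtain ⟨D, hD, hDr⟩ := swap (A i) (σ i) a b U F hUF (by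
      rw [hU]
      exact lt_of_le_of_lt (two_pow_le hF) hℓ) (fun v => (x v : K)) (fun v => (g v : K))
  have hx1 : mix D (fun v => (g v : K)) (fun v => (x v : K)) =
      fun v => ((if v ∈ D then g v else x v : ℕ) : K) := by
    funext v
    unfold mix
    split_ifs <;> rfl
  obtain ⟨Δ₀, h01, h02, h03⟩ := semi_base (A i) (σ i) a b q F hF U.ssubsets
    (mix D (fun v => (g v : K)) (fun v => (x v : K))) (mix D (fun v => (x v : K)) (fun v => (g v : K)))
  -- all conditions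
  have hex : ∀ κ : Fin c × Fin (n + 1) × Fin (n + 1) × Finset (Fin n) × Finset (Fin n), ∃ Δ : (Fin n → K) → K,
      κ ∈ conds c n ℓ q → Sep (2 * (2 ^ q * w ^ 2 * d)) Δ ∧ Δ (fun v => (g v : K)) ≠ 0 ∧ ∀ g', Δ g' ≠ 0 →
      maxRank N (A κ.1) (σ κ.1) κ.2.1 κ.2.2.1 κ.2.2.2.2 κ.2.2.2.1.powerset (fun v => (g v : K)) ≤
        maxRank N (A κ.1) (σ κ.1) κ.2.1 κ.2.2.1 κ.2.2.2.2 κ.2.2.2.1.powerset g' ∧
      maxRank N (A κ.1) (σ κ.1) κ.2.1 κ.2.2.1 κ.2.2.2.2 κ.2.2.2.1.ssubsets (fun v => (g v : K)) ≤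
        maxRank N (A κ.1) (σ κ.1) κ.2.1 κ.2.2.1 κ.2.2.2.2 κ.2.2.2.1.ssubsets g' := by
    intro κ
    by_cases hκ : κ ∈ conds c n ℓ q
    · have hκ2 := hκ
      simp only [conds, Finset.mem_filter, Finset.mem_univ, true_and] at hκ2
      obtain ⟨Δ₁, h11, h12, h13⟩ := maxRank_semi N (A κ.1) (σ κ.1) κ.2.1 κ.2.2.1 q κ.2.2.2.2 hκ2.2.1
        κ.2.2.2.1.powerset (fun v => (g v : K))
      obtain ⟨Δ₂, h21, h22, h23⟩ := maxRank_semi N (A κ.1) (σ κ.1) κ.2.1 κ.2.2.1 q κ.2.2.2.2 hκ2.2.1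
        κ.2.2.2.1.ssubsets (fun v => (g v : K))
      exact ⟨fun z => Δ₁ z * Δ₂ z, fun _ => ⟨(h11.mul h21).mono (le_of_eq (by ring)), mul_ne_zero h12 h22,
        fun g' hg' => ⟨h13 g' (left_ne_zero_of_mul hg'), h23 g' (right_ne_zero_of_mul hg')⟩⟩⟩
    · exact ⟨fun _ => 1, fun h => absurd h hκ⟩
  choose Δ hΔ using hex
  have hprod := Sep.prod (D := 2 * (2 ^ q * w ^ 2 * d)) (conds c n ℓ q) Δ fun κ hκ => (hΔ κ hκ).1
  obtain ⟨y, hy, hy1, hy2⟩ := grid_two hprod h01 U (fun v => (g v : K))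
    (mix D (fun v => (x v : K)) (fun v => (g v : K))) (fun v hv => by
      have : v ∉ D := fun h => hv (hD h)
      simp [mix, this])
    (Finset.prod_ne_zero_iff.2 fun κ hκ => (hΔ κ hκ).2.1) h02
  have hNN : (conds c n ℓ q).card * (2 * (2 ^ q * w ^ 2 * d)) + 2 ^ q * w ^ 2 * d ≤ N := by
    refine le_trans ?_ hN
    unfold gridSize maxPotential
    calc (conds c n ℓ q).card * (2 * (2 ^ q * w ^ 2 * d)) + 2 ^ q * w ^ 2 * d
        ≤ (c * (n + 1) ^ (2 + ℓ + q)) * (2 * (2 ^ q * w ^ 2 * d)) + 2 ^ q * w ^ 2 * d := by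
          gcongr
          exact card_conds c n ℓ q
      _ = _ := by ring
  have hle := hmax U hU y fun v => (hy v).trans hNN
  refine absurd hle (not_le.2 ?_)
  unfold potential
  have hge := fun κ (hκ : κ ∈ conds c n ℓ q) =>
    (hΔ κ hκ).2.2 _ (Finset.prod_ne_zero_iff.1 hy1 κ hκ)
  refine Finset.sum_lt_sum (fun κ hκ => add_le_add (hge κ hκ).1 (hge κ hκ).2) ⟨_, hκ', ?_⟩
  refine add_lt_add_of_le_of_lt (hge _ hκ').1 ?_
  simp only
  refine lt_of_lt_of_le hlt ?_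
  rw [hx']
  refine hDr.trans ((h03 _ hy2).trans ?_)
  rw [hx1]
  exact le_maxRank N (A i) (σ i) a b F U.ssubsets (fun v => if v ∈ D then g v else x v)
    (fun v => by split_ifs; exacts [hg v, hx v]) _

end Pool.Agent.V8H74.SR
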