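import Pool.Agent.V8H74.SR.Point

/-!
# Local maxima along lines
-/

set_option autoImplicit false

namespace Pool.Agent.V8H74.SR

open Module Function

/-- A separately polynomial function is a polynomial along a line in the coordinates `U`. -/
theorem line_poly {ι K : Type} [DecidableEq ι] [Field K] [CharZero K] (D : ℕ) (U : Finset ι)
    (y : ι → Polynomial K) (hy : ∀ v, (y v).natDegree ≤ 1) {f : (ι → K) → K} (hf : Sep D f) :
    ∀ z : ι → K, ∃ p : Polynomial K, p.natDegree ≤ U.card * D ∧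
      ∀ t, p.eval t = f (mix U (fun v => (y v).eval t) z) := by
  induction U using Finset.induction_on with
  | empty =>
    intro z
    refine ⟨Polynomial.C (f z), by simp, fun t => ?_⟩
    rw [Polynomial.eval_C]
    congr 1
  | insert u U hu ih =>
    intro z
    choose P hPd hP using fun j : ℕ => ih (update z u (j : K))
    have hinj : Set.InjOn (fun j : ℕ => (j : K)) (Finset.range (D + 1)) :=
      fun i _ j _ hij => Nat.cast_injective (R := K) hij
    refine ⟨∑ j ∈ Finset.range (D + 1),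
      (Lagrange.basis (Finset.range (D + 1)) (fun j : ℕ => (j : K)) j).comp (y u) * P j, ?_, fun t => ?_⟩
    · refine Polynomial.natDegree_sum_le_of_forall_le _ _ fun j hj => ?_
      refine Polynomial.natDegree_mul_le.trans ?_
      have h1 : (Lagrange.basis (Finset.range (D + 1)) (fun j : ℕ => (j : K)) j).natDegree ≤ D := by
        refine Polynomial.natDegree_le_of_degree_le ?_
        rw [Lagrange.degree_basis hinj hj, Finset.card_range]
        simp
      have h2 : ((Lagrange.basis (Finset.range (D + 1)) (fun j : ℕ => (j : K)) j).comp (y u)).natDegree ≤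
          D := by
        refine Polynomial.natDegree_comp_le.trans ?_
        calc _ ≤ D * 1 := Nat.mul_le_mul h1 (hy u)
          _ = D := mul_one D
      rw [Finset.card_insert_of_notMem hu]
      calc _ ≤ D + U.card * D := add_le_add h2 (hPd j)
        _ = (U.card + 1) * D := by ring
    · obtain ⟨p, hp, hp'⟩ := hf (mix U (fun v => (y v).eval t) z) u
      have hpdeg : p.degree < (Finset.range (D + 1)).card := by
        rw [Finset.card_range]
        exact lt_of_le_of_lt (Polynomial.degree_le_of_natDegree_le hp) (by exact_mod_cast Nat.lt_succ_self D)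
      have h1 := Lagrange.eq_interpolate hinj hpdeg
      have h2 : mix (insert u U) (fun v => (y v).eval t) z =
          update (mix U (fun v => (y v).eval t) z) u ((y u).eval t) := by
        funext v
        unfold mix
        by_cases hvu : v = u
        · subst hvu; simp
        · simp [hvu]
      rw [h2, hp', h1, Lagrange.interpolate_apply, Polynomial.eval_finsetSum, Polynomial.eval_finsetSum]
      refine Finset.sum_congr rfl fun j _ => ?_
      rw [Polynomial.eval_mul, Polynomial.eval_mul, Polynomial.eval_comp, Polynomial.eval_C, hP j,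
        mix_update_of_notMem hu, hp', mul_comm]

variable {K : Type} [Field K] {c n w d : ℕ}

/-- All conditions hold at least as well near a point, with an explicit polynomial. -/
theorem potential_semi [CharZero K] (M : ℕ) (A : Fin c → Fin n → Fin (d + 1) → Matrix (Fin w) (Fin w) K)
    (σ : Fin c → Equiv.Perm (Fin n)) (ℓ q : ℕ) (g : Fin n → K) :
    ∃ Δ : (Fin n → K) → K, Sep (maxPotential c n w ℓ q * d) Δ ∧ Δ g ≠ 0 ∧ ∀ g', Δ g' ≠ 0 →
      ∀ κ ∈ conds c n ℓ q,
      maxRank M (A κ.1) (σ κ.1) κ.2.1 κ.2.2.1 κ.2.2.2.2 κ.2.2.2.1.powerset g ≤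
        maxRank M (A κ.1) (σ κ.1) κ.2.1 κ.2.2.1 κ.2.2.2.2 κ.2.2.2.1.powerset g' ∧
      maxRank M (A κ.1) (σ κ.1) κ.2.1 κ.2.2.1 κ.2.2.2.2 κ.2.2.2.1.ssubsets g ≤
        maxRank M (A κ.1) (σ κ.1) κ.2.1 κ.2.2.1 κ.2.2.2.2 κ.2.2.2.1.ssubsets g' := by
  classical
  have hex : ∀ κ : Fin c × Fin (n + 1) × Fin (n + 1) × Finset (Fin n) × Finset (Fin n), ∃ Δ : (Fin n → K) → K,
      κ ∈ conds c n ℓ q → Sep (2 * (2 ^ q * w ^ 2 * d)) Δ ∧ Δ g ≠ 0 ∧ ∀ g', Δ g' ≠ 0 →
      maxRank M (A κ.1) (σ κ.1) κ.2.1 κ.2.2.1 κ.2.2.2.2 κ.2.2.2.1.powerset g ≤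
        maxRank M (A κ.1) (σ κ.1) κ.2.1 κ.2.2.1 κ.2.2.2.2 κ.2.2.2.1.powerset g' ∧
      maxRank M (A κ.1) (σ κ.1) κ.2.1 κ.2.2.1 κ.2.2.2.2 κ.2.2.2.1.ssubsets g ≤
        maxRank M (A κ.1) (σ κ.1) κ.2.1 κ.2.2.1 κ.2.2.2.2 κ.2.2.2.1.ssubsets g' := by
    intro κ
    by_cases hκ : κ ∈ conds c n ℓ q
    · have hκ2 := hκ
      simp only [conds, Finset.mem_filter, Finset.mem_univ, true_and] at hκ2
      obtain ⟨Δ₁, h11, h12, h13⟩ := maxRank_semi M (A κ.1) (σ κ.1) κ.2.1 κ.2.2.1 q κ.2.2.2.2 hκ2.2.1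
        κ.2.2.2.1.powerset g
      obtain ⟨Δ₂, h21, h22, h23⟩ := maxRank_semi M (A κ.1) (σ κ.1) κ.2.1 κ.2.2.1 q κ.2.2.2.2 hκ2.2.1
        κ.2.2.2.1.ssubsets g
      exact ⟨fun z => Δ₁ z * Δ₂ z, fun _ => ⟨(h11.mul h21).mono (le_of_eq (by ring)), mul_ne_zero h12 h22,
        fun g' hg' => ⟨h13 g' (left_ne_zero_of_mul hg'), h23 g' (right_ne_zero_of_mul hg')⟩⟩⟩
    · exact ⟨fun _ => 1, fun h => absurd h hκ⟩
  choose Δ hΔ using hex
  have hprod := Sep.prod (D := 2 * (2 ^ q * w ^ 2 * d)) (conds c n ℓ q) Δ fun κ hκ => (hΔ κ hκ).1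
  refine ⟨_, hprod.mono ?_, Finset.prod_ne_zero_iff.2 fun κ hκ => (hΔ κ hκ).2.1, fun g' hg' κ hκ =>
    (hΔ κ hκ).2.2 g' (Finset.prod_ne_zero_iff.1 hg' κ hκ)⟩
  unfold maxPotential
  calc (conds c n ℓ q).card * (2 * (2 ^ q * w ^ 2 * d))
      ≤ (c * (n + 1) ^ (2 + ℓ + q)) * (2 * (2 ^ q * w ^ 2 * d)) := Nat.mul_le_mul_right _ (card_conds c n ℓ q)
    _ = _ := by ring

/-- Rounding of a coordinate. -/
theorem round [CharZero K] (M : ℕ) (A : Fin c → Fin n → Fin (d + 1) → Matrix (Fin w) (Fin w) K)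
    (σ : Fin c → Equiv.Perm (Fin n)) (ℓ q : ℕ) (z : Fin n → K) (v : Fin n) :
    ∃ y : ℕ, y ≤ maxPotential c n w ℓ q * d ∧
      potential M A σ ℓ q z ≤ potential M A σ ℓ q (update z v (y : K)) := by
  obtain ⟨Δ, h1, h2, h3⟩ := potential_semi M A σ ℓ q z
  obtain ⟨p, hp, hp'⟩ := h1 z v
  have hp0 : p ≠ 0 := by
    rintro rfl
    exact h2 (by rw [← update_eq_self v z, hp', Polynomial.eval_zero])
  obtain ⟨y, hy, hy'⟩ := exists_nat p hp0 _ hp
  refine ⟨y, hy, ?_⟩
  rw [← hp'] at hy'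
  exact Finset.sum_le_sum fun κ hκ => add_le_add (h3 _ hy' κ hκ).1 (h3 _ hy' κ hκ).2

/-- If no point on the lines through `g` has a larger potential, the proper corners have the largest rank for all
conditions. -/
theorem line_good [CharZero K] (M T : ℕ) (A : Fin c → Fin n → Fin (d + 1) → Matrix (Fin w) (Fin w) K)
    (σ : Fin c → Equiv.Perm (Fin n)) (ℓ q : ℕ) (hℓ : 2 ^ q * w ^ 2 < 2 ^ ℓ) (hM : 2 ^ q * w ^ 2 * d ≤ M)
    (hT : ℓ * gridSize c n w d ℓ q ≤ T) (g : Fin n → K)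
    (hmax : ∀ D : Finset (Fin n), D.card ≤ ℓ → ∀ x : Fin n → ℕ, (∀ v, x v ≤ M) → ∀ t : ℕ, t ≤ T →
      potential M A σ ℓ q (mix D (fun v => g v + t * ((x v : K) - g v)) g) ≤ potential M A σ ℓ q g) :
    ∀ κ ∈ conds c n ℓ q,
      maxRank M (A κ.1) (σ κ.1) κ.2.1 κ.2.2.1 κ.2.2.2.2 κ.2.2.2.1.powerset g ≤
      maxRank M (A κ.1) (σ κ.1) κ.2.1 κ.2.2.1 κ.2.2.2.2 κ.2.2.2.1.ssubsets g := by
  classical
  rintro ⟨i, a, b, U, F⟩ hκ
  have hκ' := hκ
  simp only [conds, Finset.mem_filter, Finset.mem_univ, true_and] at hκ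
  obtain ⟨hU, hF, hUF⟩ := hκ
  simp only
  by_contra hlt
  push Not at hlt
  -- exchange corners
  obtain ⟨x, hx, hx'⟩ := exists_maxRank M (A i) (σ i) a b F U.powerset g
  obtain ⟨D, hD, hDr⟩ := swap (A i) (σ i) a b U F hUF (by
      rw [hU]
      exact lt_of_le_of_lt (two_pow_le hF) hℓ) (fun v => (x v : K)) g
  obtain ⟨Δ₀, h01, h02, h03⟩ := semi_base (A i) (σ i) a b q F hF U.ssubsets
    (mix D g (fun v => (x v : K))) (mix D (fun v => (x v : K)) g)
  obtain ⟨Δ, h1, h2, h3⟩ := potential_semi M A σ ℓ q g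
  have hDℓ : D.card ≤ ℓ := hU ▸ Finset.card_le_card hD
  -- the line
  obtain ⟨y, hy, hye⟩ : ∃ y : Fin n → Polynomial K, (∀ v, (y v).natDegree ≤ 1) ∧
      ∀ v t, (y v).eval t = g v + t * ((x v : K) - g v) :=
    ⟨fun v => Polynomial.C (g v) + Polynomial.X * Polynomial.C ((x v : K) - g v), fun v => by
      refine (Polynomial.natDegree_add_le _ _).trans (max_le (by simp) ?_)
      refine Polynomial.natDegree_mul_le.trans ?_
      rw [Polynomial.natDegree_X, Polynomial.natDegree_C], fun v t => by simp⟩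
  obtain ⟨p₁, hp₁, hp₁'⟩ := line_poly _ D y hy h1 g
  obtain ⟨p₂, hp₂, hp₂'⟩ := line_poly _ D y hy h01 g
  have hp₁0 : p₁ ≠ 0 := by
    rintro rfl
    have := hp₁' 0
    rw [Polynomial.eval_zero] at this
    refine h2 (Eq.trans ?_ this.symm)
    congr 1
    funext v
    simp [mix, hye]
  have hp₂0 : p₂ ≠ 0 := by
    rintro rfl
    have := hp₂' 1
    rw [Polynomial.eval_zero] at this
    refine h02 (Eq.trans ?_ this.symm)
    congr 1
    funext v
    simp [mix, hye]
  obtain ⟨t, ht, ht'⟩ := exists_nat (p₁ * p₂) (mul_ne_zero hp₁0 hp₂0) T (by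
    refine Polynomial.natDegree_mul_le.trans ((add_le_add hp₁ hp₂).trans (le_trans ?_ hT))
    rw [← mul_add]
    refine Nat.mul_le_mul hDℓ (le_of_eq ?_)
    unfold gridSize
    ring)
  rw [Polynomial.eval_mul] at ht'
  have hz : mix D (fun v => (y v).eval (t : K)) g = mix D (fun v => g v + t * ((x v : K) - g v)) g := by
    funext v
    simp [mix, hye]
  rw [hp₁', hp₂', hz] at ht'
  refine absurd (hmax D hDℓ x hx t ht) (not_le.2 ?_)
  unfold potential
  have hge := h3 _ (left_ne_zero_of_mul ht')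
  refine Finset.sum_lt_sum (fun κ hκ => add_le_add (hge κ hκ).1 (hge κ hκ).2) ⟨_, hκ', ?_⟩
  refine add_lt_add_of_le_of_lt (hge _ hκ').1 ?_
  simp only
  refine lt_of_lt_of_le hlt ?_
  rw [hx']
  refine hDr.trans ((h03 _ (right_ne_zero_of_mul ht')).trans ?_)
  exact cornerRank_le_maxRank M (A i) (σ i) a b q F hF hM U.ssubsets _ _

end Pool.Agent.V8H74.SR
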