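import Pool.Agent.V8H74.SR.Good

/-!
# Relations between corners at a generic point
-/

set_option autoImplicit false

namespace Pool.Agent.V8H74.SR

open Module Function

variable {K : Type} [Field K] {c n w d : ℕ}

/-- Finitely many separately polynomial functions, none of them zero, have a common nonvanishing point. -/
theorem common [CharZero K] {X : Type} (s : Finset X) (D : ℕ) (f : X → (Fin n → K) → K)
    (hf : ∀ a ∈ s, Sep D (f a)) (hne : ∀ a ∈ s, ∃ z, f a z ≠ 0) : ∃ z, ∀ a ∈ s, f a z ≠ 0 := by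
  classical
  induction s using Finset.induction_on with
  | empty => exact ⟨fun _ => 0, fun a ha => absurd ha (Finset.notMem_empty a)⟩
  | insert a s ha ih =>
    obtain ⟨z₁, hz₁⟩ := ih (fun b hb => hf b (Finset.mem_insert_of_mem hb))
      fun b hb => hne b (Finset.mem_insert_of_mem hb)
    obtain ⟨z₀, hz₀⟩ := hne a (Finset.mem_insert_self a s)
    obtain ⟨y, -, hy1, hy2⟩ := grid_two (hf a (Finset.mem_insert_self a s))
      (Sep.prod s f fun b hb => hf b (Finset.mem_insert_of_mem hb)) Finset.univ z₀ z₁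
      (fun v hv => absurd (Finset.mem_univ v) hv) hz₀ (Finset.prod_ne_zero_iff.2 hz₁)
    refine ⟨mix Finset.univ (fun v => (y v : K)) z₀, fun b hb => ?_⟩
    rcases Finset.mem_insert.1 hb with rfl | hb
    · exact hy1
    · exact Finset.prod_ne_zero_iff.1 hy2 b hb

/-- The maximum over the grid is the maximum over all points. -/
theorem cornerRank_le_maxRank [CharZero K] (N : ℕ) (A : Fin n → Fin (d + 1) → Matrix (Fin w) (Fin w) K)
    (σ : Equiv.Perm (Fin n)) (a b q : ℕ) (F : Finset (Fin n)) (hF : F.card ≤ q)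
    (hN : 2 ^ q * w ^ 2 * d ≤ N) (𝒮 : Finset (Finset (Fin n))) (x g : Fin n → K) :
    cornerRank A σ a b F 𝒮 x g ≤ maxRank N A σ a b F 𝒮 g := by
  obtain ⟨Δ, h1, h2, h3⟩ := semi_left A σ a b q F hF 𝒮 x g
  obtain ⟨y, hy, hy1, -⟩ := grid_two h1 (Sep.const (ι := Fin n) (K := K) 0 1) Finset.univ x x
    (fun _ _ => rfl) h2 one_ne_zero
  have h4 : mix Finset.univ (fun v => (y v : K)) x = fun v => (y v : K) := by
    funext v
    simp [mix]
  rw [h4] at hy1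
  exact (h3 _ hy1).trans (le_maxRank N A σ a b F 𝒮 y (fun v => (hy v).trans (by simpa using hN)) g)

/-- There is a point `x` with `f x ≠ 0` at which all corners are spanned by the proper corners. -/
theorem generic_point [CharZero K] (N : ℕ) (A : Fin c → Fin n → Fin (d + 1) → Matrix (Fin w) (Fin w) K)
    (σ : Fin c → Equiv.Perm (Fin n)) (ℓ q : ℕ) (hN : 2 ^ q * w ^ 2 * d ≤ N) (g : Fin n → K)
    (hgood : ∀ κ ∈ conds c n ℓ q,
      maxRank N (A κ.1) (σ κ.1) κ.2.1 κ.2.2.1 κ.2.2.2.2 κ.2.2.2.1.powerset g ≤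
      maxRank N (A κ.1) (σ κ.1) κ.2.1 κ.2.2.1 κ.2.2.2.2 κ.2.2.2.1.ssubsets g)
    (f : (Fin n → K) → K) (D : ℕ) (hf : Sep D f) (hne : ∃ z, f z ≠ 0) :
    ∃ x, f x ≠ 0 ∧ ∀ κ ∈ conds c n ℓ q, corner (A κ.1) (σ κ.1) κ.2.1 κ.2.2.1 κ.2.2.2.2 x g κ.2.2.2.1 ∈
      Submodule.span K ((κ.2.2.2.1.ssubsets : Set (Finset (Fin n))).image
        (corner (A κ.1) (σ κ.1) κ.2.1 κ.2.2.1 κ.2.2.2.2 x g)) := by
  classical
  have hex : ∀ κ : Fin c × Fin (n + 1) × Fin (n + 1) × Finset (Fin n) × Finset (Fin n), ∃ Δ : (Fin n → K) → K,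
      κ ∈ conds c n ℓ q → Sep (2 ^ q * w ^ 2 * d) Δ ∧ (∃ x, Δ x ≠ 0) ∧ ∀ x, Δ x ≠ 0 →
      maxRank N (A κ.1) (σ κ.1) κ.2.1 κ.2.2.1 κ.2.2.2.2 κ.2.2.2.1.ssubsets g ≤
        cornerRank (A κ.1) (σ κ.1) κ.2.1 κ.2.2.1 κ.2.2.2.2 κ.2.2.2.1.ssubsets x g := by
    intro κ
    by_cases hκ : κ ∈ conds c n ℓ q
    · have hκ2 := hκ
      simp only [conds, Finset.mem_filter, Finset.mem_univ, true_and] at hκ2
      obtain ⟨x, hx, hx'⟩ := exists_maxRank N (A κ.1) (σ κ.1) κ.2.1 κ.2.2.1 κ.2.2.2.2 κ.2.2.2.1.ssubsets g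
      obtain ⟨Δ, h1, h2, h3⟩ := semi_left (A κ.1) (σ κ.1) κ.2.1 κ.2.2.1 q κ.2.2.2.2 hκ2.2.1
        κ.2.2.2.1.ssubsets (fun v => (x v : K)) g
      exact ⟨Δ, fun _ => ⟨h1, ⟨_, h2⟩, fun x' hx'' => by rw [hx']; exact h3 x' hx''⟩⟩
    · exact ⟨fun _ => 1, fun h => absurd h hκ⟩
  choose Δ hΔ using hex
  obtain ⟨x, hx⟩ := common (Finset.insertNone (conds c n ℓ q)) (2 ^ q * w ^ 2 * d + D)
    (fun o => match o with | none => f | some κ => Δ κ) (by
      rintro (_ | κ) hκ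
      · exact hf.mono (Nat.le_add_left _ _)
      · exact (hΔ κ (by simpa using hκ)).1.mono (Nat.le_add_right _ _)) (by
      rintro (_ | κ) hκ
      · exact hne
      · exact (hΔ κ (by simpa using hκ)).2.1)
  refine ⟨x, hx none (by simp), fun κ hκ => ?_⟩
  have h1 := (hΔ κ hκ).2.2 x (hx (some κ) (by simpa using hκ))
  have hκ2 := hκ
  simp only [conds, Finset.mem_filter, Finset.mem_univ, true_and] at hκ2
  have h2 := (cornerRank_le_maxRank N (A κ.1) (σ κ.1) κ.2.1 κ.2.2.1 q κ.2.2.2.2 hκ2.2.1 hN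
    κ.2.2.2.1.powerset x g).trans ((hgood κ hκ).trans h1)
  unfold cornerRank at h2
  have hle : Submodule.span K ((κ.2.2.2.1.ssubsets : Set (Finset (Fin n))).image
      (corner (A κ.1) (σ κ.1) κ.2.1 κ.2.2.1 κ.2.2.2.2 x g)) ≤
      Submodule.span K ((κ.2.2.2.1.powerset : Set (Finset (Fin n))).image
      (corner (A κ.1) (σ κ.1) κ.2.1 κ.2.2.1 κ.2.2.2.2 x g)) := by
    refine Submodule.span_mono (Set.image_mono fun S hS => ?_)
    rw [Finset.mem_coe] at hS ⊢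
    exact Finset.mem_powerset.2 (Finset.mem_ssubsets.1 hS).1
  rw [Submodule.eq_of_le_of_finrank_le hle h2]
  exact Submodule.subset_span ⟨_, Finset.mem_coe.2 (Finset.mem_powerset_self _), rfl⟩

end Pool.Agent.V8H74.SR
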