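import Pool.Agent.V8H74.SR.Generic

/-!
# The potential of a base point and its local maxima
-/

set_option autoImplicit false

namespace Pool.Agent.V8H74.SR

open Module Function

section interpolation

variable {ι K : Type} [DecidableEq ι] [Field K] {V : Type} [AddCommGroup V] [Module K V]

theorem poly_mem_deg [CharZero K] (d : ℕ) (f : K → V)
    (hf : ∀ φ : V →ₗ[K] K, ∃ p : Polynomial K, p.natDegree ≤ d ∧ ∀ t, φ (f t) = p.eval t)
    (W : Submodule K V) (h : ∀ j : Fin (d + 1), f ((j : ℕ) : K) ∈ W) (t : K) : f t ∈ W := by
  by_contra hn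
  obtain ⟨φ, hφ, hφW⟩ := Submodule.exists_le_ker_of_notMem hn
  obtain ⟨p, hpd, hp⟩ := hf φ
  apply hφ
  rw [hp]
  have hp0 : p = 0 := by
    refine Polynomial.eq_zero_of_natDegree_lt_card_of_eval_eq_zero p (ι := Fin (d + 1))
      (f := fun i => ((i : ℕ) : K)) (fun i j hij => Fin.ext (Nat.cast_injective (R := K) hij))
      (fun i => ?_) ?_
    · rw [← hp]
      exact LinearMap.mem_ker.1 (hφW (h i))
    · rw [Fintype.card_fin]
      omega
  rw [hp0, Polynomial.eval_zero]

/-- Values of a separately polynomial function are spanned by its values on a grid. -/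
theorem interpolate [CharZero K] (d : ℕ) (f : (ι → K) → V) (hf : VSep d f) (W : Submodule K V) (U : Finset ι) :
    ∀ z : ι → K, (∀ x : ι → Fin (d + 1), f (mix U (fun v => ((x v : ℕ) : K)) z) ∈ W) →
      ∀ x : ι → K, f (mix U x z) ∈ W := by
  induction U using Finset.induction_on with
  | empty =>
    intro z h x
    have h1 := h fun _ => 0
    have hmix : ∀ x : ι → K, mix ∅ x z = z := fun x => by
      funext v
      simp [mix]
    rw [hmix] at h1 ⊢
    exact h1
  | insert u U hu ih =>
    intro z h x
    have hmixu : ∀ (x : ι → K) (t : K), mix U x (update z u t) = mix (insert u U) (update x u t) z := by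
      intro x t
      funext v
      unfold mix
      by_cases hvu : v = u
      · subst hvu; simp [hu]
      · simp [hvu]
    have h1 := poly_mem_deg d (fun t => f (mix U x (update z u t))) (fun φ => by
      obtain ⟨p, hp, hp'⟩ := hf φ (mix U x z) u
      exact ⟨p, hp, fun t => by simp only [mix_update_of_notMem hu, hp']⟩) W (fun j => by
        refine ih (update z u ((j : ℕ) : K)) (fun x' => ?_) x
        have h2 := h (update x' u j)
        rw [hmixu]
        convert h2 using 2
        congr 1
        funext v
        by_cases hvu : v = u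
        · subst hvu; simp
        · simp [hvu]) (x u)
    simp only [hmixu, update_eq_self] at h1
    exact h1

end interpolation

variable {K : Type} [Field K] {c n w d : ℕ}

/-- The matrix `∑_j t ^ j A_j`. -/
def atPoint (A : Fin (d + 1) → Matrix (Fin w) (Fin w) K) (t : K) : Matrix (Fin w) (Fin w) K :=
  ∑ j : Fin (d + 1), t ^ (j : ℕ) • A j

/-- The variables in the order in which they are read. -/
def word (σ : Equiv.Perm (Fin n)) : List (Fin n) := (List.finRange n).map σ

theorem word_nodup (σ : Equiv.Perm (Fin n)) : (word σ).Nodup :=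
  (List.nodup_finRange n).map σ.injective

theorem mem_word (σ : Equiv.Perm (Fin n)) (v : Fin n) : v ∈ word σ :=
  List.mem_map.2 ⟨σ.symm v, List.mem_finRange _, by simp⟩

theorem entry_sep {ι : Type} [DecidableEq ι] (M : ι → K → Matrix (Fin w) (Fin w) K)
    (hM : ∀ v p q, ∃ P : Polynomial K, P.natDegree ≤ d ∧ ∀ t, M v t p q = P.eval t) (l : List ι) (hl : l.Nodup) :
    ∀ p q, Sep d (fun z => val M l z p q) := by
  induction l with
  | nil =>
    intro p q
    exact Sep.const d _
  | cons v l ih =>
    rw [List.nodup_cons] at hl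
    intro p q z u
    have hval : ∀ z, val M (v :: l) z p q = ∑ r, M v (z v) p r * val M l z r q := fun z => by
      simp [val, Matrix.mul_apply]
    by_cases huv : u = v
    · subst huv
      have h1 : ∀ t, val M l (update z u t) = val M l z := fun t =>
        val_congr M l _ _ fun a ha => update_of_ne (fun h => hl.1 (by rw [← h]; exact ha)) _ _
      choose P hP hP' using hM
      refine ⟨∑ r, P u p r * Polynomial.C (val M l z r q), ?_, fun t => ?_⟩
      · refine Polynomial.natDegree_sum_le_of_forall_le _ _ fun r _ => ?_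
        exact (Polynomial.natDegree_mul_C_le _ _).trans (hP u p r)
      · simp only [hval, h1, update_self, Polynomial.eval_finsetSum, Polynomial.eval_mul, Polynomial.eval_C, hP']
    · have h2 := ih hl.2
      choose Q hQ hQ' using fun r => h2 r q z u
      refine ⟨∑ r, Polynomial.C (M v (z v) p r) * Q r, ?_, fun t => ?_⟩
      · refine Polynomial.natDegree_sum_le_of_forall_le _ _ fun r _ => ?_
        exact (Polynomial.natDegree_C_mul_le _ _).trans (hQ r)
      · simp only [hval, update_of_ne (Ne.symm huv), Polynomial.eval_finsetSum, Polynomial.eval_mul,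
          Polynomial.eval_C, ← hQ']

theorem val_vsep {ι : Type} [DecidableEq ι] (M : ι → K → Matrix (Fin w) (Fin w) K)
    (hM : ∀ v p q, ∃ P : Polynomial K, P.natDegree ≤ d ∧ ∀ t, M v t p q = P.eval t) (l : List ι) (hl : l.Nodup) :
    VSep d (fun z => val M l z) := by
  intro φ
  have h1 : (fun z => φ (val M l z)) =
      fun z => ∑ p, ∑ q, φ (Matrix.single p q 1) * val M l z p q := by
    funext z
    conv_lhs => rw [Matrix.matrix_eq_sum_single (val M l z)]
    simp only [map_sum]
    refine Finset.sum_congr rfl fun p _ => Finset.sum_congr rfl fun q _ => ?_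
    rw [← mul_one (val M l z p q), ← smul_eq_mul, ← Matrix.smul_single, map_smul, smul_eq_mul, smul_eq_mul,
      mul_one, mul_comm]
  rw [h1]
  exact Sep.sum _ _ fun p _ => Sep.sum _ _ fun q _ => (entry_sep M hM l hl p q).const_mul _

theorem atPoint_poly (A : Fin (d + 1) → Matrix (Fin w) (Fin w) K) (p q : Fin w) :
    ∃ P : Polynomial K, P.natDegree ≤ d ∧ ∀ t, atPoint A t p q = P.eval t := by
  refine ⟨∑ j : Fin (d + 1), Polynomial.C (A j p q) * Polynomial.X ^ (j : ℕ), ?_, fun t => ?_⟩
  · refine Polynomial.natDegree_sum_le_of_forall_le _ _ fun j _ => ?_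
    exact (Polynomial.natDegree_C_mul_X_pow_le _ _).trans (by omega)
  · simp only [atPoint, Matrix.sum_apply, Matrix.smul_apply, smul_eq_mul, Polynomial.eval_finsetSum,
      Polynomial.eval_mul, Polynomial.eval_C, Polynomial.eval_pow, Polynomial.eval_X]
    exact Finset.sum_congr rfl fun j _ => mul_comm _ _

end Pool.Agent.V8H74.SR
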