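import Pool.Agent.V8H74.SR.Defs

/-!
# Sums of read-once oblivious programs: the structure lemma
-/

set_option autoImplicit false

namespace Pool.Agent.V8H74.SR

open Finset
open scoped Matrix

/-! ### counting in a word -/

/-- a segment without elements of `Φ` and with exactly `ℓ` elements of `T` -/
theorem seg_list {ι : Type} [DecidableEq ι] {T Φ : Finset ι} (hd : Disjoint T Φ) {ℓ : ℕ}
    (hℓ : 1 ≤ ℓ) : ∀ (w cur : List ι), (∀ v ∈ cur, v ∉ Φ) → cur.countP (· ∈ T) ≤ ℓ - 1 →
      (ℓ - 1) * (w.countP (· ∈ Φ) + 1) < cur.countP (· ∈ T) + w.countP (· ∈ T) →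
      ∃ l₁ l₂ l₃, cur ++ w = l₁ ++ l₂ ++ l₃ ∧ (∀ v ∈ l₂, v ∉ Φ) ∧ l₂.countP (· ∈ T) = ℓ := by
  intro w
  induction w with
  | nil =>
    intro cur _ h2 h3
    simp only [List.countP_nil] at h3
    omega
  | cons v w ih =>
    intro cur h1 h2 h3
    rw [List.countP_cons, List.countP_cons] at h3
    by_cases hv : v ∈ Φ
    · have hvT : v ∉ T := fun h => Finset.disjoint_left.1 hd h hv
      simp only [hv, hvT, decide_true, decide_false, if_true, Bool.false_eq_true, if_false,
        add_zero] at h3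
      have h4 : (ℓ - 1) * (w.countP (· ∈ Φ) + 1) <
          ([] : List ι).countP (· ∈ T) + w.countP (· ∈ T) := by
        have e : (ℓ - 1) * (w.countP (· ∈ Φ) + 1 + 1) =
            (ℓ - 1) * (w.countP (· ∈ Φ) + 1) + (ℓ - 1) := by ring
        rw [e] at h3
        rw [List.countP_nil]
        omega
      obtain ⟨l₁, l₂, l₃, e, h5, h6⟩ := ih [] (fun _ h => by cases h) (by simp) h4
      refine ⟨cur ++ v :: l₁, l₂, l₃, ?_, h5, h6⟩
      rw [List.nil_append] at e
      rw [e]
      simp
    · have h1' : ∀ u ∈ cur ++ [v], u ∉ Φ := by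
        intro u hu
        rw [List.mem_append, List.mem_singleton] at hu
        rcases hu with hu | hu
        · exact h1 u hu
        · rw [hu]; exact hv
      by_cases hvT : v ∈ T
      · have e1 : (cur ++ [v]).countP (· ∈ T) = cur.countP (· ∈ T) + 1 := by
          rw [List.countP_append]
          simp [hvT]
        simp only [hv, hvT, decide_true, decide_false, if_true, Bool.false_eq_true, if_false,
          add_zero] at h3
        by_cases hc : cur.countP (· ∈ T) + 1 = ℓ
        · exact ⟨[], cur ++ [v], w, by simp, h1', by rw [e1, hc]⟩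
        · obtain ⟨l₁, l₂, l₃, e, h5, h6⟩ := ih (cur ++ [v]) h1' (by rw [e1]; omega)
            (by rw [e1]; omega)
          refine ⟨l₁, l₂, l₃, ?_, h5, h6⟩
          rw [← e]
          simp
      · have e1 : (cur ++ [v]).countP (· ∈ T) = cur.countP (· ∈ T) := by
          rw [List.countP_append]
          simp [hvT]
        simp only [hv, hvT, decide_false, Bool.false_eq_true, if_false, add_zero] at h3
        obtain ⟨l₁, l₂, l₃, e, h5, h6⟩ := ih (cur ++ [v]) h1' (by rw [e1]; omega)
          (by rw [e1]; omega)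
        refine ⟨l₁, l₂, l₃, ?_, h5, h6⟩
        rw [← e]
        simp

theorem countP_card {ι : Type} [DecidableEq ι] (T : Finset ι) (l : List ι) (h : l.Nodup) :
    (T ∩ l.toFinset).card = l.countP (· ∈ T) := by
  rw [List.countP_eq_length_filter, ← List.toFinset_card_of_nodup (h.filter _)]
  congr 1
  ext v
  simp only [Finset.mem_inter, List.mem_toFinset, List.mem_filter, decide_eq_true_eq]
  tauto

theorem seg {ι : Type} [DecidableEq ι] {T Φ : Finset ι} (hd : Disjoint T Φ) {ℓ : ℕ}
    (hℓ : 1 ≤ ℓ) (w : List ι) (hw : w.Nodup) (hall : ∀ v, v ∈ w)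
    (h : (ℓ - 1) * (Φ.card + 1) < T.card) :
    ∃ l₁ l₂ l₃, w = l₁ ++ l₂ ++ l₃ ∧ (∀ v ∈ l₂, v ∉ Φ) ∧ (T ∩ l₂.toFinset).card = ℓ := by
  have e : ∀ A : Finset ι, w.countP (· ∈ A) = A.card := by
    intro A
    rw [← countP_card A w hw]
    congr 1
    rw [Finset.inter_eq_left]
    intro v _
    exact List.mem_toFinset.2 (hall v)
  obtain ⟨l₁, l₂, l₃, e1, h1, h2⟩ := seg_list hd hℓ w [] (fun _ h => by cases h) (by simp)
    (by rw [e, e, List.countP_nil]; omega)
  rw [List.nil_append] at e1
  refine ⟨l₁, l₂, l₃, e1, h1, ?_⟩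
  rw [countP_card, h2]
  rw [e1] at hw
  exact (List.nodup_append.1 (List.nodup_append.1 hw).1).2.1

/-! ### combinations of values at modified points -/

section comb

variable {ι K : Type} [DecidableEq ι] [Field K]

/-- the combination of the values of `f` at modified points -/
def ev (S : List (K × (ι → K))) (Φ : Finset ι) (f : (ι → K) → K) (y : ι → K) : K :=
  (S.map fun p => p.1 * f (mix Φ p.2 y)).sum

/-- the next combination -/
def nxt (S : List (K × (ι → K))) (U : Finset ι) (x : ι → K) (B : List (K × (ι → K))) :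
    List (K × (ι → K)) :=
  S.flatMap fun p => (p.1, mix U x p.2) :: B.map fun q => (-(p.1 * q.1), mix U q.2 p.2)

theorem mix_mix {Φ U : Finset ι} (h : Disjoint Φ U) (a x y : ι → K) :
    mix (Φ ∪ U) (mix U x a) y = mix Φ a (mix U x y) := by
  funext v
  unfold mix
  by_cases h1 : v ∈ Φ
  · have h2 : v ∉ U := Finset.disjoint_left.1 h h1
    simp [h1, h2]
  · by_cases h2 : v ∈ U <;> simp [h1, h2]

theorem sum_lem (B : List (K × (ι → K))) (c : K) (X Y : (ι → K) → K) :
    (B.map fun q => q.1 * (c * X q.2 + Y q.2)).sum =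
      -(B.map fun q => -(c * q.1) * X q.2).sum + (B.map fun q => q.1 * Y q.2).sum := by
  induction B with
  | nil => simp
  | cons q B ih =>
    simp only [List.map_cons, List.sum_cons, ih]
    ring

theorem ev_nxt (S : List (K × (ι → K))) {Φ U : Finset ι} (h : Disjoint Φ U) (x : ι → K)
    (B : List (K × (ι → K))) (f : (ι → K) → K) (y : ι → K) :
    ev (nxt S U x B) (Φ ∪ U) f y =
      ev S Φ f (mix U x y) - (B.map fun q => q.1 * ev S Φ f (mix U q.2 y)).sum := by
  induction S with
  | nil => simp [ev, nxt]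
  | cons p S ih =>
    have e1 : ev (nxt (p :: S) U x B) (Φ ∪ U) f y =
        (p.1 * f (mix (Φ ∪ U) (mix U x p.2) y) +
          (B.map fun q => -(p.1 * q.1) * f (mix (Φ ∪ U) (mix U q.2 p.2) y)).sum) +
        ev (nxt S U x B) (Φ ∪ U) f y := by
      unfold ev nxt
      rw [List.flatMap_cons, List.map_append, List.sum_append, List.map_cons, List.sum_cons,
        List.map_map]
      rfl
    have e2 : ∀ z, ev (p :: S) Φ f z = p.1 * f (mix Φ p.2 z) + ev S Φ f z := by
      intro z
      unfold ev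
      rw [List.map_cons, List.sum_cons]
    rw [e1, ih]
    simp only [mix_mix h, e2]
    rw [sum_lem B p.1 (fun z => f (mix Φ p.2 (mix U z y))) (fun z => ev S Φ f (mix U z y))]
    ring

theorem ev_sum {c : ℕ} (S : List (K × (ι → K))) (Φ : Finset ι) (A : Fin c → (ι → K) → K)
    (y : ι → K) : ev S Φ (fun z => ∑ i, A i z) y = ∑ i, ev S Φ (A i) y := by
  induction S with
  | nil => simp [ev]
  | cons p S ih =>
    have e2 : ∀ (f : (ι → K) → K) z, ev (p :: S) Φ f z = p.1 * f (mix Φ p.2 z) + ev S Φ f z := by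
      intro f z
      unfold ev
      rw [List.map_cons, List.sum_cons]
    simp only [e2]
    rw [ih, Finset.mul_sum, Finset.sum_add_distrib]

theorem sum_lem2 (B : List (K × (ι → K))) (c : K) (X Y : (ι → K) → K) :
    (B.map fun q => q.1 * (c * X q.2 + Y q.2)).sum =
      c * (B.map fun q => q.1 * X q.2).sum + (B.map fun q => q.1 * Y q.2).sum := by
  induction B with
  | nil => simp
  | cons q B ih =>
    simp only [List.map_cons, List.sum_cons, ih]
    ring

theorem ev_comb (S : List (K × (ι → K))) (Φ U : Finset ι) (f : (ι → K) → K) (x y : ι → K)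
    (B : List (K × (ι → K))) (h : ∀ a : ι → K, f (mix Φ a (mix U x y)) =
      (B.map fun q => q.1 * f (mix Φ a (mix U q.2 y))).sum) :
    ev S Φ f (mix U x y) = (B.map fun q => q.1 * ev S Φ f (mix U q.2 y)).sum := by
  induction S with
  | nil => simp [ev]
  | cons p S ih =>
    have e2 : ∀ z, ev (p :: S) Φ f z = p.1 * f (mix Φ p.2 z) + ev S Φ f z := by
      intro z
      unfold ev
      rw [List.map_cons, List.sum_cons]
    simp only [e2]
    rw [sum_lem2 B p.1 (fun z => f (mix Φ p.2 (mix U z y))) (fun z => ev S Φ f (mix U z y)), ih,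
      h p.2]

/-- a list of coefficients and points for an element of the span -/
theorem exists_comb {w : ℕ} (M : ι → K → Matrix (Fin w) (Fin w) K) (l : List ι) (U : Finset ι)
    (g : ι → K) (m : Matrix (Fin w) (Fin w) K)
    (h : m ∈ Submodule.span K
        {m | ∃ u ∈ U, ∃ x' : ι → K, m = val M l (mix (U.erase u) x' g)}) :
    ∃ B : List (K × (ι → K)), (∀ q ∈ B, ∃ u ∈ U, q.2 u = g u) ∧
      m = (B.map fun q => q.1 • val M l (mix U q.2 g)).sum := by
  induction h using Submodule.span_induction with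
  | mem m hm =>
    obtain ⟨u, hu, x', rfl⟩ := hm
    refine ⟨[(1, Function.update x' u (g u))], ?_, ?_⟩
    · intro q hq
      rw [List.mem_singleton] at hq
      rw [hq]
      exact ⟨u, hu, by simp⟩
    · rw [List.map_singleton, List.sum_singleton, one_smul]
      refine val_congr M l _ _ fun v _ => ?_
      unfold mix
      by_cases h1 : v = u
      · subst h1
        simp [hu]
      · by_cases h2 : v ∈ U <;> simp [h1, h2]
  | zero => exact ⟨[], (fun _ h => by cases h), by simp⟩
  | add m m' _ _ h1 h2 =>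
    obtain ⟨B, hB, rfl⟩ := h1
    obtain ⟨B', hB', rfl⟩ := h2
    refine ⟨B ++ B', ?_, ?_⟩
    · intro q hq
      rw [List.mem_append] at hq
      exact hq.elim (hB q) (hB' q)
    · rw [List.map_append, List.sum_append]
  | smul a m _ h1 =>
    obtain ⟨B, hB, rfl⟩ := h1
    refine ⟨B.map fun q => (a * q.1, q.2), ?_, ?_⟩
    · intro q hq
      rw [List.mem_map] at hq
      obtain ⟨r, hr, rfl⟩ := hq
      exact hB r hr
    · rw [List.map_map, List.smul_sum, List.map_map]
      congr 1
      refine List.map_congr_left fun q _ => ?_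
      simp only [Function.comp_apply, mul_smul]

theorem lin_list {w : ℕ} (Lv Rv : Fin w → K) (P Q : Matrix (Fin w) (Fin w) K)
    (V : (ι → K) → Matrix (Fin w) (Fin w) K) (B : List (K × (ι → K))) :
    Lv ⬝ᵥ ((P * (B.map fun q => q.1 • V q.2).sum * Q) *ᵥ Rv) =
      (B.map fun q => q.1 * (Lv ⬝ᵥ ((P * V q.2 * Q) *ᵥ Rv))).sum := by
  induction B with
  | nil => simp
  | cons q B ih =>
    rw [List.map_cons, List.sum_cons, List.map_cons, List.sum_cons, ← ih, Matrix.mul_add,
      Matrix.add_mul, Matrix.add_mulVec, dotProduct_add, Matrix.mul_smul, Matrix.smul_mul,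
      Matrix.smul_mulVec, dotProduct_smul, smul_eq_mul]

end comb

section main

variable {ι K : Type} [Fintype ι] [DecidableEq ι] [Field K] {c : ℕ}

/-- the states of the induction -/
structure St (ℓ : ℕ) (A : Fin c → (ι → K) → K) (g : ι → K) (J : Finset (Fin c))
    (Φ Rg T : Finset ι) (S : List (K × (ι → K))) : Prop where
  sub : Φ ⊆ Rg
  card : Φ.card = J.card * ℓ
  disj : Disjoint T Rg
  Z : ∀ i ∈ J, ∀ y : ι → K, (∀ v ∈ Rg, y v = g v) → ev S Φ (A i) y = 0
  N : ∃ x, ev S Φ (fun z => ∑ i, A i z) (mix T x g) ≠ 0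
  m : ∀ (T' : Finset ι) (x' : ι → K), Disjoint T' Rg → T'.card < T.card →
    ev S Φ (fun z => ∑ i, A i z) (mix T' x' g) = 0

theorem St.not_full {ℓ : ℕ} {A : Fin c → (ι → K) → K} {g : ι → K} {J : Finset (Fin c)}
    {Φ Rg T : Finset ι} {S : List (K × (ι → K))} (h : St ℓ A g J Φ Rg T S) : J.card < c := by
  by_contra hc
  have hJ : J = univ := by
    apply Finset.eq_univ_of_card
    rw [Fintype.card_fin]
    refine le_antisymm ?_ (not_lt.1 hc)
    have := Finset.card_le_univ J
    rwa [Fintype.card_fin] at this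
  obtain ⟨x, hx⟩ := h.N
  apply hx
  rw [ev_sum]
  refine Finset.sum_eq_zero fun i _ => h.Z i (by rw [hJ]; exact Finset.mem_univ i) _ ?_
  intro v hv
  unfold mix
  rw [if_neg]
  exact fun h' => Finset.disjoint_left.1 h.disj h' hv

theorem St.kill {ℓ w : ℕ} (word : Fin c → List ι) (hnd : ∀ i, (word i).Nodup)
    (M : Fin c → ι → K → Matrix (Fin w) (Fin w) K) (g : ι → K)
    (hg : ∀ i (l₁ l₂ l₃ : List ι), word i = l₁ ++ l₂ ++ l₃ → ∀ U : Finset ι, U.card = ℓ →
      ∀ x : ι → K, val (M i) l₂ (mix U x g) ∈ Submodule.span K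
        {m | ∃ u ∈ U, ∃ x' : ι → K, m = val (M i) l₂ (mix (U.erase u) x' g)})
    (L R : Fin c → Fin w → K) {A : Fin c → (ι → K) → K}
    (hA : ∀ i z, A i z = L i ⬝ᵥ (val (M i) (word i) z *ᵥ R i))
    {J : Finset (Fin c)} {Φ Rg T : Finset ι} {S : List (K × (ι → K))}
    (h : St ℓ A g J Φ Rg T S) {i : Fin c} (hi : i ∉ J) {l₁ l₂ l₃ : List ι}
    (hw : word i = l₁ ++ l₂ ++ l₃) (hΦ : ∀ v ∈ l₂, v ∉ Φ) {U : Finset ι}
    (hU : U = T ∩ l₂.toFinset) (hUc : U.card = ℓ) :
    ∃ S', St ℓ A g (insert i J) (Φ ∪ U) (Rg ∪ l₂.toFinset) (T \ U) S' := by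
  obtain ⟨x, hx⟩ := h.N
  obtain ⟨B, hB, hV⟩ := exists_comb (M i) l₂ U g _ (hg i l₁ l₂ l₃ hw U hUc x)
  have hUT : U ⊆ T := by rw [hU]; exact Finset.inter_subset_left
  have hUl : ∀ v ∈ U, v ∈ l₂ := by
    intro v hv
    rw [hU, Finset.mem_inter, List.mem_toFinset] at hv
    exact hv.2
  have hd : Disjoint Φ U := by
    rw [Finset.disjoint_left]
    intro v h1 h2
    exact hΦ v (hUl v h2) h1
  have hTR : ∀ v ∈ T, v ∉ Rg := fun v h1 h2 => Finset.disjoint_left.1 h.disj h1 h2
  have hnd' := hnd i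
  rw [hw] at hnd'
  have hn1 : ∀ v ∈ l₁, v ∉ l₂ := by
    intro v h1 h2
    exact (List.nodup_append.1 (List.nodup_append.1 hnd').1).2.2 v h1 v h2 rfl
  have hn3 : ∀ v ∈ l₃, v ∉ l₂ := by
    intro v h1 h2
    exact (List.nodup_append.1 hnd').2.2 v (List.mem_append_right _ h2) v h1 rfl
  refine ⟨nxt S U x B, ?_, ?_, ?_, ?_, ⟨x, ?_⟩, ?_⟩
  · refine Finset.union_subset_union h.sub ?_
    intro v hv
    exact List.mem_toFinset.2 (hUl v hv)
  · rw [Finset.card_union_of_disjoint hd, h.card, hUc, Finset.card_insert_of_notMem hi]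
    ring
  · rw [Finset.disjoint_left]
    intro v h1 h2
    rw [Finset.mem_sdiff] at h1
    rw [Finset.mem_union] at h2
    rcases h2 with h2 | h2
    · exact hTR v h1.1 h2
    · exact h1.2 (by rw [hU]; exact Finset.mem_inter.2 ⟨h1.1, h2⟩)
  · intro j hj y hy
    rw [ev_nxt S hd]
    rw [Finset.mem_insert] at hj
    rcases hj with hj | hj
    · subst hj
      -- the new program
      have key : ∀ (a z : ι → K), A j (mix Φ a (mix U z y)) =
          L j ⬝ᵥ ((val (M j) l₁ (mix Φ a y) * val (M j) l₂ (mix U z g) *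
            val (M j) l₃ (mix Φ a y)) *ᵥ R j) := by
        intro a z
        rw [hA, hw, val_append, val_append]
        have c1 : ∀ l : List ι, (∀ v ∈ l, v ∉ l₂) →
            val (M j) l (mix Φ a (mix U z y)) = val (M j) l (mix Φ a y) := by
          intro l hl
          refine val_congr _ _ _ _ fun v hv => ?_
          have h1 : v ∉ U := fun h2 => hl v hv (hUl v h2)
          unfold mix
          simp [h1]
        have c2 : val (M j) l₂ (mix Φ a (mix U z y)) = val (M j) l₂ (mix U z g) := by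
          refine val_congr _ _ _ _ fun v hv => ?_
          have h1 := hΦ v hv
          have h2 := hy v (Finset.mem_union_right _ (List.mem_toFinset.2 hv))
          unfold mix
          simp [h1, h2]
        rw [c1 l₁ hn1, c1 l₃ hn3, c2]
      have e1 : ∀ a : ι → K, A j (mix Φ a (mix U x y)) =
          (B.map fun q => q.1 * A j (mix Φ a (mix U q.2 y))).sum := by
        intro a
        rw [key, hV, lin_list (L j) (R j) _ _ (fun z => val (M j) l₂ (mix U z g))]
        simp only [key]
      rw [ev_comb S Φ U (A j) x y B e1, sub_self]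
    · have e1 : ∀ z : ι → K, ev S Φ (A j) (mix U z y) = 0 := by
        intro z
        refine h.Z j hj _ fun v hv => ?_
        have h1 : v ∉ U := fun h2 => hTR v (hUT h2) hv
        unfold mix
        rw [if_neg h1]
        exact hy v (Finset.mem_union_left _ hv)
      simp [e1]
  · rw [ev_nxt S hd]
    have e1 : mix U x (mix (T \ U) x g) = mix T x g := by
      funext v
      unfold mix
      by_cases h1 : v ∈ U
      · simp [h1, hUT h1]
      · simp [h1]
    have e2 : (B.map fun q => q.1 * ev S Φ (fun z => ∑ i, A i z)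
        (mix U q.2 (mix (T \ U) x g))).sum = 0 := by
      refine List.sum_eq_zero fun r hr => ?_
      rw [List.mem_map] at hr
      obtain ⟨q, hq, rfl⟩ := hr
      obtain ⟨u, hu, hqu⟩ := hB q hq
      have e3 : mix U q.2 (mix (T \ U) x g) = mix (T.erase u) (mix U q.2 x) g := by
        funext v
        unfold mix
        by_cases h1 : v = u
        · subst h1
          simp [hu, hqu]
        · by_cases h2 : v ∈ U
          · simp [h1, h2, hUT h2]
          · simp [h1, h2]
      rw [e3, h.m (T.erase u) _ (Finset.disjoint_of_subset_left (Finset.erase_subset _ _) h.disj)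
        (Finset.card_erase_lt_of_mem (hUT hu)), mul_zero]
    rw [e1, e2, sub_zero]
    exact hx
  · intro T' x' hd' hc'
    rw [ev_nxt S hd]
    have e1 : ∀ z : ι → K, ev S Φ (fun z => ∑ i, A i z) (mix U z (mix T' x' g)) = 0 := by
      intro z
      have e2 : mix U z (mix T' x' g) = mix (U ∪ T') (mix U z x') g := by
        funext v
        unfold mix
        by_cases h1 : v ∈ U <;> by_cases h2 : v ∈ T' <;> simp [h1, h2]
      rw [e2]
      refine h.m _ _ ?_ ?_
      · rw [Finset.disjoint_union_left]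
        exact ⟨Finset.disjoint_of_subset_left hUT h.disj,
          Finset.disjoint_of_subset_right Finset.subset_union_left hd'⟩
      · have h1 := Finset.card_union_le U T'
        have h2 := Finset.card_sdiff_add_card_eq_card hUT
        omega
    simp [e1]

theorem St.bound {ℓ w : ℕ} (hℓ : 1 ≤ ℓ) (word : Fin c → List ι) (hnd : ∀ i, (word i).Nodup)
    (hall : ∀ i v, v ∈ word i)
    (M : Fin c → ι → K → Matrix (Fin w) (Fin w) K) (g : ι → K)
    (hg : ∀ i (l₁ l₂ l₃ : List ι), word i = l₁ ++ l₂ ++ l₃ → ∀ U : Finset ι, U.card = ℓ →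
      ∀ x : ι → K, val (M i) l₂ (mix U x g) ∈ Submodule.span K
        {m | ∃ u ∈ U, ∃ x' : ι → K, m = val (M i) l₂ (mix (U.erase u) x' g)})
    (L R : Fin c → Fin w → K) {A : Fin c → (ι → K) → K}
    (hA : ∀ i z, A i z = L i ⬝ᵥ (val (M i) (word i) z *ᵥ R i)) :
    ∀ (d : ℕ) (J : Finset (Fin c)) (Φ Rg T : Finset ι) (S : List (K × (ι → K))),
      J.card + d = c → St ℓ A g J Φ Rg T S →
      T.card ≤ (ℓ - 1) * ((c - 1) * ℓ + 1) + (c - 1 - J.card) * ℓ := by
  intro d
  induction d with
  | zero =>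
    intro J Φ Rg T S hJ h
    have := h.not_full
    omega
  | succ d ih =>
    intro J Φ Rg T S hJ h
    by_cases hT : (ℓ - 1) * (Φ.card + 1) < T.card
    · obtain ⟨i, hi⟩ : ∃ i, i ∉ J := by
        by_contra hcon
        push Not at hcon
        have hJu : J = univ := Finset.eq_univ_of_forall hcon
        have h1 := h.not_full
        rw [hJu, Finset.card_univ, Fintype.card_fin] at h1
        exact lt_irrefl _ h1
      have hd : Disjoint T Φ := Finset.disjoint_of_subset_right h.sub h.disj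
      obtain ⟨l₁, l₂, l₃, hw, hΦ, hc⟩ := seg hd hℓ (word i) (hnd i) (hall i) hT
      obtain ⟨S', hS'⟩ := h.kill word hnd M g hg L R hA hi hw hΦ rfl hc
      have h1 := hS'.not_full
      have h2 := ih _ _ _ _ _ (by rw [Finset.card_insert_of_notMem hi]; omega) hS'
      rw [Finset.card_insert_of_notMem hi] at h1 h2
      have h3 := Finset.card_sdiff_add_card_eq_card
        (Finset.inter_subset_left : T ∩ l₂.toFinset ⊆ T)
      rw [hc] at h3
      have h4 : c - 1 - J.card = (c - 1 - (J.card + 1)) + 1 := by omega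
      rw [h4, Nat.add_mul, one_mul]
      omega
    · rw [h.card] at hT
      have h1 : J.card ≤ c - 1 := by
        have := h.not_full
        omega
      have h2 : (ℓ - 1) * (J.card * ℓ + 1) ≤ (ℓ - 1) * ((c - 1) * ℓ + 1) :=
        Nat.mul_le_mul_left _ (Nat.add_le_add_right (Nat.mul_le_mul_right _ h1) _)
      exact ((not_lt.1 hT).trans h2).trans (Nat.le_add_right _ _)

/-- **The structure lemma.** -/
theorem struct {ι K : Type} [Fintype ι] [DecidableEq ι] [Field K] {c w ℓ : ℕ} (hℓ : 1 ≤ ℓ)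
    (word : Fin c → List ι) (hnd : ∀ i, (word i).Nodup) (hall : ∀ i v, v ∈ word i)
    (M : Fin c → ι → K → Matrix (Fin w) (Fin w) K) (g : ι → K)
    (hg : ∀ i (l₁ l₂ l₃ : List ι), word i = l₁ ++ l₂ ++ l₃ → ∀ U : Finset ι, U.card = ℓ → ∀ x : ι → K,
      val (M i) l₂ (mix U x g) ∈ Submodule.span K
        {m | ∃ u ∈ U, ∃ x' : ι → K, m = val (M i) l₂ (mix (U.erase u) x' g)})
    (L R : Fin c → Fin w → K) (z : ι → K)
    (hz : ∑ i, L i ⬝ᵥ (val (M i) (word i) z *ᵥ R i) ≠ 0) :
    ∃ T : Finset ι, T.card ≤ (c - 1) * ℓ ^ 2 + ℓ - 1 ∧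
      ∃ x : ι → K, ∑ i, L i ⬝ᵥ (val (M i) (word i) (mix T x g) *ᵥ R i) ≠ 0 := by
  classical
  obtain ⟨A, hA⟩ : ∃ A : Fin c → (ι → K) → K,
    A = fun i z => L i ⬝ᵥ (val (M i) (word i) z *ᵥ R i) := ⟨_, rfl⟩
  have hA' : ∀ i z, A i z = L i ⬝ᵥ (val (M i) (word i) z *ᵥ R i) := fun i z => by rw [hA]
  simp only [← hA'] at hz ⊢
  have hex : ∃ n : ℕ, ∃ T : Finset ι, T.card = n ∧ ∃ x : ι → K, ∑ i, A i (mix T x g) ≠ 0 := by
    refine ⟨_, univ, rfl, z, ?_⟩
    have e : mix univ z g = z := by
      funext v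
      unfold mix
      rw [if_pos (Finset.mem_univ v)]
    rw [e]
    exact hz
  obtain ⟨T, hT, x, hx⟩ := Nat.find_spec hex
  have hmin : ∀ (T' : Finset ι) (x' : ι → K), T'.card < T.card → ∑ i, A i (mix T' x' g) = 0 := by
    intro T' x' h
    by_contra hne
    rw [hT] at h
    exact Nat.find_min hex h ⟨T', rfl, x', hne⟩
  refine ⟨T, ?_, x, hx⟩
  have hev : ∀ (f : (ι → K) → K) (y : ι → K), ev [((1 : K), g)] ∅ f y = f y := by
    intro f y
    have e : mix ∅ g y = y := by
      funext v
      unfold mix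
      rw [if_neg (Finset.notMem_empty v)]
    unfold ev
    rw [List.map_singleton, List.sum_singleton, one_mul, e]
  have hSt : St ℓ A g ∅ ∅ ∅ T [((1 : K), g)] := by
    refine ⟨le_rfl, by simp, Finset.disjoint_empty_right _, fun i hi => absurd hi (Finset.notMem_empty i),
      ⟨x, ?_⟩, fun T' x' _ h => ?_⟩
    · rw [hev]; exact hx
    · rw [hev]; exact hmin T' x' h
  have h1 := St.bound hℓ word hnd hall M g hg L R hA' c ∅ ∅ ∅ T _ (by simp) hSt
  have h2 := hSt.not_full
  rw [Finset.card_empty] at h1 h2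
  obtain ⟨k, rfl⟩ : ∃ k, ℓ = k + 1 := ⟨ℓ - 1, by omega⟩
  obtain ⟨e, rfl⟩ : ∃ e, c = e + 1 := ⟨c - 1, by omega⟩
  simp only [Nat.add_sub_cancel, Nat.sub_zero] at h1 ⊢
  have e1 : k * (e * (k + 1) + 1) + e * (k + 1) = e * (k + 1) ^ 2 + k := by ring
  rw [e1] at h1
  omega

end main

end Pool.Agent.V8H74.SR
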